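import Pool.Agent.PolyCell.KAx
import Pool.Agent.PolyCell.DH2

/-!
# Degree bounds from bounds of `T_x T_u T_y`, `ℓ(u) ≥ 2`: statements by total length; junctions

`A0S, A1S, A0pS, A1pS`: bounds of `T_x T_y` and `T_x T_g T_y` modulo `H_{> N}`. `DHyp N n`: bounds of `T_x T_u T_y` with
`x` rmin, `y` lmin, `u ∈ D_T`, `ℓ(u) ≥ 2`, total length at most `n`.
-/

open CoxeterSystem

namespace Pool.Agent.PolyCell

variable {B W : Type*} [Group W] {M : CoxeterMatrix B} {cs : CoxeterSystem M W}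
  {C : W → Hk cs} {N : ℕ}

/-- every triple `x, g, y` is reduced or `x` has a second right descent `h` with `m_{gh}` finite -/
def HDich (cs : CoxeterSystem M W) : Prop := ∀ ⦃x y : W⦄ ⦃g : B⦄, ¬ cs.IsRightDescent x g →
  ¬ cs.IsLeftDescent y g →
  cs.length (x * cs.simple g * y) = cs.length x + 1 + cs.length y ∨
    ∃ h, h ≠ g ∧ M g h ≠ 0 ∧ cs.IsRightDescent x h

theorem hdich_of_fin (hM : ∀ i j : B, M i j ≠ 0) : HDich cs := by
  intro x y g hx hy
  by_cases h1 : x = 1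
  · left
    rw [h1, one_mul, cs.length_one, zero_add, (cs.not_isLeftDescent_iff).1 hy, add_comm]
  · obtain ⟨h, hh⟩ := cs.exists_rightDescent_of_ne_one h1
    refine Or.inr ⟨h, ?_, hM g h, hh⟩
    rintro rfl
    exact hx hh

def A0S (cs : CoxeterSystem M W) (C : W → Hk cs) (N n : ℕ) : Prop :=
  ∀ x y : W, cs.length x + cs.length y ≤ n → Lat cs C N N (T cs x * T cs y)

def A1S (cs : CoxeterSystem M W) (C : W → Hk cs) (N n : ℕ) : Prop :=
  ∀ (x y : W) (g : B), cs.length x + cs.length y + 1 ≤ n → ¬ cs.IsRightDescent x g →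
    ¬ cs.IsLeftDescent y g → Lat cs C N ((N : ℤ) - 1) (T cs x * T cs (cs.simple g) * T cs y)

def A0pS (cs : CoxeterSystem M W) (C : W → Hk cs) (N n : ℕ) : Prop :=
  ∀ x y : W, cs.length x + cs.length y ≤ n → Le cs (N - 1) x →
    Lat cs C N ((N : ℤ) - 1) (T cs x * T cs y)

def A1pS (cs : CoxeterSystem M W) (C : W → Hk cs) (N n : ℕ) : Prop :=
  ∀ (x y : W) (g : B), cs.length x + cs.length y + 1 ≤ n → ¬ cs.IsRightDescent x g →
    ¬ cs.IsLeftDescent y g → Le cs (N - 1) (x * cs.simple g) →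
    Lat cs C N ((N : ℤ) - 2) (T cs x * T cs (cs.simple g) * T cs y)

/-- bounds of `T_x T_u T_y`, `x` rmin, `y` lmin, `ℓ(u) ≥ 2`, total length `≤ n` -/
structure DHyp (cs : CoxeterSystem M W) (C : W → Hk cs) (N n : ℕ) : Prop where
  small : ∀ ⦃i j : B⦄ ⦃x y u : W⦄, i ≠ j → M i j ≠ 0 → M i j ≤ N → Rmin cs i j x →
    Lmin cs i j y → Le cs N x → Le cs N y → u ∈ D cs i j → 2 ≤ cs.length u →
    cs.length x + cs.length u + cs.length y ≤ n →
    Lat cs C N ((N : ℤ) - cs.length u) (T cs x * T cs u * T cs y)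
  small' : ∀ ⦃i j : B⦄ ⦃x y u : W⦄, i ≠ j → M i j ≠ 0 → M i j < N → Rmin cs i j x →
    Lmin cs i j y → Le cs (N - 1) (x * wT cs i j) → Le cs N (wT cs i j * y) → u ∈ D cs i j →
    2 ≤ cs.length u → cs.length x + cs.length u + cs.length y ≤ n →
    Lat cs C N ((N : ℤ) - 1 - cs.length u) (T cs x * T cs u * T cs y)
  big : ∀ ⦃i j : B⦄ ⦃x y u : W⦄, i ≠ j → M i j ≠ 0 → N < M i j → Rmin cs i j x →
    Lmin cs i j y → Le cs N x → Le cs N y → u ∈ D cs i j → u ≠ wT cs i j → 2 ≤ cs.length u →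
    cs.length x + cs.length u + cs.length y ≤ n →
    Lat cs C N ((N : ℤ) - 2) (T cs x * T cs u * T cs y)

theorem DHyp.mono {n n' : ℕ} (h : n' ≤ n) (hD : DHyp cs C N n) : DHyp cs C N n' where
  small _ _ _ _ _ h1 h2 h3 h4 h5 h6 h7 h8 h9 h10 :=
    hD.small h1 h2 h3 h4 h5 h6 h7 h8 h9 (h10.trans h)
  small' _ _ _ _ _ h1 h2 h3 h4 h5 h6 h7 h8 h9 h10 :=
    hD.small' h1 h2 h3 h4 h5 h6 h7 h8 h9 (h10.trans h)
  big _ _ _ _ _ h1 h2 h3 h4 h5 h6 h7 h8 h9 h10 h11 :=
    hD.big h1 h2 h3 h4 h5 h6 h7 h8 h9 h10 (h11.trans h)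

/-! ## simple elements of `D` -/

theorem simple_mem_D {i j c : B} (hc : c = i ∨ c = j) : cs.simple c ∈ D cs i j := by
  refine Subgroup.subset_closure ?_
  rcases hc with rfl | rfl
  · exact Or.inl rfl
  · exact Or.inr rfl

theorem le_prefix_D {i j : B} (hij : i ≠ j) (hm : M i j ≠ 0) {x u : W} (hx : Rmin cs i j x)
    (hu : u ∈ D cs i j) (h : Le cs N (x * wT cs i j)) : Le cs N (x * u) := by
  have hv : u⁻¹ * wT cs i j ∈ D cs i j := Subgroup.mul_mem _ (Subgroup.inv_mem _ hu) (wT_mem cs i j)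
  have e : x * u * (u⁻¹ * wT cs i j) = x * wT cs i j := by group
  refine le_prefix cs (y := u⁻¹ * wT cs i j) ?_ (by rw [e]; exact h)
  unfold Red
  rw [e, len_mul_D cs hij hx (wT_mem cs i j), len_mul_D cs hij hx hu, length_wT cs hij]
  have h2 := len_compl cs hij hm hu
  omega

theorem le_suffix_D {i j : B} (hij : i ≠ j) (hm : M i j ≠ 0) {y u : W} (hy : Lmin cs i j y)
    (hu : u ∈ D cs i j) (h : Le cs N (wT cs i j * y)) : Le cs N (u * y) := by
  have hv : wT cs i j * u⁻¹ ∈ D cs i j := Subgroup.mul_mem _ (wT_mem cs i j) (Subgroup.inv_mem _ hu)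
  have e : wT cs i j * u⁻¹ * (u * y) = wT cs i j * y := by group
  refine le_suffix cs (x := wT cs i j * u⁻¹) ?_ (by rw [e]; exact h)
  unfold Red
  rw [e, len_D_mul cs hij hy (wT_mem cs i j), len_D_mul cs hij hy hu, length_wT cs hij]
  have h2 := len_compl cs hij hm (Subgroup.inv_mem _ hu)
  have h3 : cs.length (wT cs i j * u⁻¹) = cs.length (u * wT cs i j) := by
    rw [← cs.length_inv, mul_inv_rev, inv_inv, wT_inv]
  have h4 := len_compl cs hij hm hu
  have h5 : cs.length u⁻¹ = cs.length u := cs.length_inv u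
  have h6 : cs.length (u * wT cs i j) = cs.length (wT cs i j * u⁻¹) := h3.symm
  omega

end Pool.Agent.PolyCell
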