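import Pool.Agent.PolyTri.EDefs

/-!
# Junctions `T_{x₁} T_a T_b T_{y₁}` from `DHyp`

`junc_small` (`m ≤ N`, total length `≤ 2m - 2`): `Lat (N-2)`. `junc_big` (`m > N`, `a, b ≠ w_T`): `Lat (N-1)`, and `Lat (N-2)` if the
total length is `≤ 2m - 3`. `junc_top` (`m ≤ N`, total length `2m - 1`).
-/

open CoxeterSystem

namespace Pool.Agent.PolyCell

variable {B W : Type*} [Group W] {M : CoxeterMatrix B} {cs : CoxeterSystem M W}
  {C : W → Hk cs} {N : ℕ}

theorem len_one_D {i j : B} (hij : i ≠ j) {c : W} (hc : c ∈ D cs i j)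
    (h : cs.length c = 1) : ∃ g, (g = i ∨ g = j) ∧ c = cs.simple g := by
  obtain ⟨k, rfl⟩ := cs.length_eq_one_iff.1 h
  have hrd : cs.IsRightDescent (cs.simple k) k := by
    unfold CoxeterSystem.IsRightDescent
    rw [cs.simple_mul_simple_self, cs.length_one, cs.length_simple]
    exact Nat.zero_lt_one
  exact ⟨k, rd_of_mem_D cs hij hc hrd, rfl⟩

/-- `m ≤ N`, total length at most `2m - 2` -/
theorem junc_small {n : ℕ} (hD : DHyp cs C N n) {i j t : B} (hij : i ≠ j)
    (hm : M i j ≠ 0) (hmN : M i j ≤ N) {x a b y : W} (hx : Rmin cs i j x) (hy : Lmin cs i j y)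
    (hxN : Le cs N x) (hyN : Le cs N y) (ha : a ∈ D cs i j) (hb : b ∈ D cs i j)
    (hat : cs.IsRightDescent a t) (hbt : ¬ cs.IsLeftDescent b t)
    (h2 : 2 ≤ cs.length a + cs.length b)
    (hl : cs.length a + cs.length b + 2 ≤ 2 * M i j)
    (hn : cs.length x + (cs.length a + cs.length b) + cs.length y ≤ n) :
    Lat cs C N ((N : ℤ) - 2) (T cs x * T cs a * T cs b * T cs y) := by
  have hass : T cs x * T cs a * T cs b * T cs y = T cs x * (T cs a * T cs b) * T cs y := by
    rw [mul_assoc (T cs x) (T cs a) (T cs b)]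
  rw [hass]
  rcases Nat.le_total (cs.length a + cs.length b) (M i j) with h | h
  · have h1 := len_junction cs hij hm ha hb hat hbt h
    have h1' : cs.length (a * b) = cs.length a + cs.length b := h1
    rw [T_mul_T cs h1]
    refine lat_mono ?_ (hD.small hij hm hmN hx hy hxN hyN (Subgroup.mul_mem _ ha hb)
      (by omega) (by omega))
    omega
  · refine lat_expand x y _ fun c hc => ?_
    have hcD := mul_supp_D cs ha hb hc
    have hg := dh1 cs hij hm ha hb hat hbt h c
    have h3 : 2 ≤ cs.length c := by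
      by_contra hlt
      exact hc (hg.2.2 (by omega))
    have h4 := len_D_le cs hij hm hcD
    have h5 := lat_smul hg.1 (hD.small hij hm hmN hx hy hxN hyN hcD h3 (by omega))
    exact lat_mono (by omega) h5

/-- `m > N` -/
theorem junc_big {n : ℕ} (hC : IsKL cs C) (hI : IdealN cs C N) (hD : DHyp cs C N (n + 1))
    (h0 : A0S cs C N n) {i j t : B} (hij : i ≠ j)
    (hm : M i j ≠ 0) (hmN : N < M i j) {x a b y : W} (hx : Rmin cs i j x) (hy : Lmin cs i j y)
    (hxN : Le cs N x) (hyN : Le cs N y) (ha : a ∈ D cs i j) (hb : b ∈ D cs i j)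
    (ha' : a ≠ wT cs i j) (hb' : b ≠ wT cs i j)
    (hat : cs.IsRightDescent a t) (hbt : ¬ cs.IsLeftDescent b t)
    (h2 : 2 ≤ cs.length a + cs.length b)
    (hn : cs.length x + (cs.length a + cs.length b) + cs.length y ≤ n + 1) {k : ℤ}
    (hk : (N : ℤ) - 2 ≤ k)
    (hk' : (N : ℤ) + (cs.length a + cs.length b + 1 - 2 * M i j) ≤ k) :
    Lat cs C N k (T cs x * T cs a * T cs b * T cs y) := by
  have hass : T cs x * T cs a * T cs b * T cs y = T cs x * (T cs a * T cs b) * T cs y := by
    rw [mul_assoc (T cs x) (T cs a) (T cs b)]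
  rw [hass]
  rcases Nat.lt_or_ge (cs.length a + cs.length b) (M i j) with h | h
  · have h1 := len_junction cs hij hm ha hb hat hbt h.le
    have h1' : cs.length (a * b) = cs.length a + cs.length b := h1
    rw [T_mul_T cs h1]
    refine lat_mono hk (hD.big hij hm hmN hx hy hxN hyN (Subgroup.mul_mem _ ha hb) ?_
      (by omega) (by omega))
    intro e
    rw [e, length_wT cs hij] at h1'
    omega
  · obtain ⟨g, r, hab, hsupp, hdle⟩ := dh2 cs hC hij hm ha hb ha' hb' hat hbt h
    have hexp : T cs x * (T cs a * T cs b) * T cs y = T cs x * g * T cs y +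
        r • (T cs x * C (wT cs i j) * T cs y) := by
      rw [hab, mul_add, add_mul, mul_smul_comm, smul_mul_assoc]
    rw [hexp]
    have hfac : Fac cs N (wT cs i j) := by
      refine ⟨i, j, hij, hmN, 1, 1, by rw [one_mul, mul_one], ?_⟩
      rw [length_wT cs hij, cs.length_one]
      omega
    have hz : Zero cs C N (r • (T cs x * C (wT cs i j) * T cs y)) :=
      zero_smul' (zero_mul_right hC hI (hI _ hfac (T cs x)).2 (T cs y))
    refine lat_add (lat_expand x y _ fun c hc => ?_) (lat_of_zero k hz)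
    obtain ⟨hcD, hcw⟩ := hsupp c hc
    have hcl := len_D_le cs hij hm hcD
    have h3 : cs.length c = 0 ∨ cs.length c = 1 ∨ 2 ≤ cs.length c := by omega
    rcases h3 with h3 | h3 | h3
    · have hc1 : c = 1 := cs.length_eq_zero_iff.1 h3
      have e1 : T cs x * T cs c * T cs y = T cs x * T cs y := by
        rw [hc1, ← one_def' cs, mul_one]
      rw [e1]
      exact lat_mono (by omega) (lat_smul (hdle c).2 (h0 x y (by omega)))
    · obtain ⟨d, hd, rfl⟩ := len_one_D hij hcD h3
      have hxd : ¬ cs.IsRightDescent x d := by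
        rcases hd with rfl | rfl
        · exact hx.1
        · exact hx.2
      rw [T_mul_s cs hxd]
      have hl := (cs.not_isRightDescent_iff).1 hxd
      exact lat_mono (by omega) (lat_smul (hdle _).2 (h0 (x * cs.simple d) y (by omega)))
    · exact lat_mono (by omega) (lat_smul (hdle c).1
        (hD.big hij hm hmN hx hy hxN hyN hcD hcw h3 (by omega)))

/-- `m ≤ N`, total length `2m - 1`; `k1` is the bound for `ℓ(c) = 1`, `k` the bound for `ℓ(c) ≥ 2`. -/
theorem junc_top {i j t : B} (hij : i ≠ j)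
    (hm : M i j ≠ 0) {x a b y : W} (ha : a ∈ D cs i j) (hb : b ∈ D cs i j)
    (hat : cs.IsRightDescent a t) (hbt : ¬ cs.IsLeftDescent b t)
    (hl : cs.length a + cs.length b + 1 = 2 * M i j) {k : ℤ}
    (h1 : ∀ d, d = i ∨ d = j → Lat cs C N k (T cs x * T cs (cs.simple d) * T cs y))
    (h2 : ∀ u, u ∈ D cs i j → 2 ≤ cs.length u →
      Lat cs C N (k + 1 - cs.length u) (T cs x * T cs u * T cs y)) :
    Lat cs C N k (T cs x * T cs a * T cs b * T cs y) := by
  have h2m := two_le_exp hij hm
  have hass : T cs x * T cs a * T cs b * T cs y = T cs x * (T cs a * T cs b) * T cs y := by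
    rw [mul_assoc (T cs x) (T cs a) (T cs b)]
  rw [hass]
  refine lat_expand x y _ fun c hc => ?_
  have hcD := mul_supp_D cs ha hb hc
  have hg := dh1 cs hij hm ha hb hat hbt (by omega) c
  have h3 : cs.length c = 0 ∨ cs.length c = 1 ∨ 2 ≤ cs.length c := by omega
  rcases h3 with h3 | h3 | h3
  · exact absurd (hg.2.2 (by omega)) hc
  · obtain ⟨d, hd, rfl⟩ := len_one_D hij hcD h3
    exact lat_mono (by omega) (lat_smul hg.1 (h1 d hd))
  · exact lat_mono (by omega) (lat_smul hg.1 (h2 c hcD h3))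

end Pool.Agent.PolyCell
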