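import Pool.Agent.PolyTri.EJunc

/-!
# The induction for `A0, A1, A0', A1'`
-/

open CoxeterSystem

namespace Pool.Agent.PolyCell

variable {B W : Type*} [Group W] {M : CoxeterMatrix B} {cs : CoxeterSystem M W}
  {C : W → Hk cs} {N : ℕ}

theorem fac_left_lat (hC : IsKL cs C) (hI : IdealN cs C N) {k : ℤ} {x : W} {g : Hk cs}
    (hx : Fac cs N x) (h : ∀ z, cs.length z < cs.length x → Lat cs C N k (T cs z * g)) :
    Lat cs C N (k - 1) (T cs x * g) := by
  obtain ⟨a, hz, ha⟩ := T_fac_expand hC hx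
  have e1 : T cs x * g = (T cs x - Finsupp.linearCombination LP (T cs) a) * g +
      ∑ z ∈ a.support, a z • (T cs z * g) := by
    rw [sub_mul, Finsupp.linearCombination_apply, Finsupp.sum, Finset.sum_mul]
    have : ∑ z ∈ a.support, a z • (T cs z * g) = ∑ z ∈ a.support, a z • T cs z * g :=
      Finset.sum_congr rfl fun z _ => (smul_mul_assoc _ _ _).symm
    rw [this]
    abel
  rw [e1]
  refine lat_add (lat_of_zero _ (zero_mul_right hC hI hz g)) (lat_sum _ _ ?_)
  intro z hzs
  obtain ⟨-, h2, h3⟩ := ha z (Finsupp.mem_support_iff.mp hzs)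
  exact lat_smul h3 (h z h2)

theorem fac_right_lat (hC : IsKL cs C) (hI : IdealN cs C N) {k : ℤ} {y : W} {g : Hk cs}
    (hy : Fac cs N y) (h : ∀ z, cs.length z < cs.length y → Lat cs C N k (g * T cs z)) :
    Lat cs C N (k - 1) (g * T cs y) := by
  obtain ⟨a, hz, ha⟩ := T_fac_expand hC hy
  have e1 : g * T cs y = g * (T cs y - Finsupp.linearCombination LP (T cs) a) +
      ∑ z ∈ a.support, a z • (g * T cs z) := by
    rw [mul_sub, Finsupp.linearCombination_apply, Finsupp.sum, Finset.mul_sum]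
    have : ∑ z ∈ a.support, a z • (g * T cs z) = ∑ z ∈ a.support, g * a z • T cs z :=
      Finset.sum_congr rfl fun z _ => (mul_smul_comm _ _ _).symm
    rw [this]
    abel
  rw [e1]
  refine lat_add (lat_of_zero _ (zero_mul_left hC hI hz g)) (lat_sum _ _ ?_)
  intro z hzs
  obtain ⟨-, h2, h3⟩ := ha z (Finsupp.mem_support_iff.mp hzs)
  exact lat_smul h3 (h z h2)

/-- common descent: `T_x T_y = T_{x'} T_{y'} + ξ T_{x'} T_g T_{y'}` -/
theorem common_lat {k : ℤ} {x y : W} {g : B} (hgx : cs.IsRightDescent x g)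
    (hgy : cs.IsLeftDescent y g)
    (h0 : Lat cs C N k (T cs (x * cs.simple g) * T cs (cs.simple g * y)))
    (h1 : Lat cs C N (k - 1)
      (T cs (x * cs.simple g) * T cs (cs.simple g) * T cs (cs.simple g * y))) :
    Lat cs C N k (T cs x * T cs y) := by
  have lx := cs.isRightDescent_iff.mp hgx
  have ly := cs.isLeftDescent_iff.mp hgy
  have ex : x * cs.simple g * cs.simple g = x := cs.simple_mul_simple_cancel_right g
  have ey : cs.simple g * (cs.simple g * y) = y := cs.simple_mul_simple_cancel_left g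
  have nx : ¬ cs.IsRightDescent (x * cs.simple g) g := by
    rw [cs.not_isRightDescent_iff, ex]; omega
  have ny : ¬ cs.IsLeftDescent (cs.simple g * y) g := by
    rw [cs.not_isLeftDescent_iff, ey]; omega
  have Tx : T cs x = T cs (x * cs.simple g) * T cs (cs.simple g) := by
    rw [T_mul_s cs nx, ex]
  have Ty : T cs y = T cs (cs.simple g) * T cs (cs.simple g * y) := by
    rw [s_mul_T cs ny, ey]
  have key : T cs x * T cs y = T cs (x * cs.simple g) * T cs (cs.simple g * y) +
      xi • (T cs (x * cs.simple g) * T cs (cs.simple g) * T cs (cs.simple g * y)) := by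
    rw [Tx, Ty]
    have : T cs (x * cs.simple g) * T cs (cs.simple g) * (T cs (cs.simple g) * T cs (cs.simple g * y))
        = T cs (x * cs.simple g) * (T cs (cs.simple g) * T cs (cs.simple g)) *
          T cs (cs.simple g * y) := by
      simp only [mul_assoc]
    rw [this, T_s_sq, mul_add, mul_one, add_mul, mul_smul_comm, smul_mul_assoc]
  rw [key]
  have gx : dle 1 xi := by
    have := gd_xi_mul gd_one
    simpa using this.1
  have p3 := lat_smul gx h1
  rw [sub_add_cancel] at p3
  exact lat_add h0 p3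

/-- no common descent -/
theorem nocommon_lat (hd : HDich cs) (hC : IsKL cs C) (hI : IdealN cs C N) (hN : 2 ≤ N)
    {n : ℕ} (hD : DHyp cs C N (n + 1)) (h0 : A0S cs C N n) {x y : W}
    (hxN : Le cs N x) (hyN : Le cs N y)
    (hxy : cs.length x + cs.length y ≤ n + 1)
    (hno : ∀ g, cs.IsRightDescent x g → ¬ cs.IsLeftDescent y g) :
    Lat cs C N ((N : ℤ) - 1) (T cs x * T cs y) := by
  by_cases hx1 : x = 1
  · rw [hx1, ← one_def', one_mul]
    exact lat_mono (by omega) (lat_T hC y)
  obtain ⟨s, hs⟩ := cs.exists_rightDescent_of_ne_one hx1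
  have lx := cs.isRightDescent_iff.mp hs
  have ex : x * cs.simple s * cs.simple s = x := cs.simple_mul_simple_cancel_right s
  have nx : ¬ cs.IsRightDescent (x * cs.simple s) s := by
    rw [cs.not_isRightDescent_iff, ex]; omega
  have hsy := hno s hs
  rcases hd nx hsy with hred | ⟨h, hhs, hm, hhx⟩
  · rw [ex] at hred
    have : Red cs x y := by
      unfold Red; omega
    rw [T_mul_T cs this]
    exact lat_mono (by omega) (lat_T hC _)
  have hsh : s ≠ h := fun e => hhs e.symm
  obtain ⟨x₁, a, hx₁, ha, hxa⟩ := decompR cs hsh x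
  obtain ⟨b, y₁, hy₁, hb, hyb⟩ := decompL cs hsh y
  have hsa : cs.IsRightDescent a s := by
    rw [hxa] at hs
    exact (rd_mul_D cs hsh (Or.inl rfl) hx₁ ha).mp hs
  have hsb : ¬ cs.IsLeftDescent b s := by
    rw [hyb] at hsy
    exact fun hc => hsy ((ld_D_mul cs hsh (Or.inl rfl) hy₁ hb).mpr hc)
  have hsD : cs.simple s ∈ D cs s h := simple_mem_D (Or.inl rfl)
  have hasD : a * cs.simple s ∈ D cs s h := Subgroup.mul_mem _ ha hsD
  have hhas : cs.IsRightDescent (a * cs.simple s) h := by
    have e : x * cs.simple s = x₁ * (a * cs.simple s) := by rw [hxa, mul_assoc]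
    rw [e] at hhx
    exact (rd_mul_D cs hsh (Or.inr rfl) hx₁ hasD).mp hhx
  have hb' : b ≠ wT cs s h := by
    intro e
    exact hsb (by rw [e]; exact ld_wT cs hsh hm (Or.inl rfl))
  have la := cs.isRightDescent_iff.mp hsa
  have las := cs.isRightDescent_iff.mp hhas
  have lb_le : cs.length b < M s h :=
    lt_of_le_of_ne (len_D_le cs hsh hm hb) fun e => hb' (eq_wT_of_len cs hsh hm hb e)
  have la_le := len_D_le cs hsh hm ha
  have rx : Red cs x₁ a := len_mul_D cs hsh hx₁ ha
  have ry : Red cs b y₁ := len_D_mul cs hsh hy₁ hb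
  have lxa : cs.length x = cs.length x₁ + cs.length a := by rw [hxa]; exact rx
  have lyb : cs.length y = cs.length b + cs.length y₁ := by rw [hyb]; exact ry
  have hx₁N : Le cs N x₁ := le_prefix cs rx (by rw [← hxa]; exact hxN)
  have hy₁N : Le cs N y₁ := le_suffix cs ry (by rw [← hyb]; exact hyN)
  have key : T cs x * T cs y = T cs x₁ * T cs a * T cs b * T cs y₁ := by
    rw [hxa, hyb, ← T_mul_T cs rx, ← T_mul_T cs ry]
    simp only [mul_assoc]
  rw [key]
  -- `a = w_T` only if `b = 1`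
  have haw : a = wT cs s h → cs.length b = 0 := by
    intro e
    by_contra hb0
    have hb1 : b ≠ 1 := fun e' => hb0 (by rw [e', cs.length_one])
    obtain ⟨c, hc⟩ := cs.exists_leftDescent_of_ne_one hb1
    have hc' := ld_of_mem_D cs hsh hb hc
    rcases hc' with rfl | rfl
    · exact hsb hc
    · have h1 : cs.IsRightDescent a c := by rw [e]; exact rd_wT cs hsh hm (Or.inr rfl)
      have h2 : cs.IsRightDescent x c := by
        rw [hxa]; exact (rd_mul_D cs hsh (Or.inr rfl) hx₁ ha).mpr h1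
      have h3 : cs.IsLeftDescent y c := by
        rw [hyb]; exact (ld_D_mul cs hsh (Or.inr rfl) hy₁ hb).mpr hc
      exact hno c h2 h3
  have h2m := two_le_exp hsh hm
  rcases Nat.lt_or_ge N (M s h) with hmN | hmN
  · -- `m > N`
    have ha' : a ≠ wT cs s h := by
      intro e
      refine hxN (fac_of_both cs hsh hmN ?_ ?_)
      · rw [hxa, e]
        exact (rd_mul_D cs hsh (Or.inl rfl) hx₁ (wT_mem cs s h)).mpr (rd_wT cs hsh hm (Or.inl rfl))
      · rw [hxa, e]
        exact (rd_mul_D cs hsh (Or.inr rfl) hx₁ (wT_mem cs s h)).mpr (rd_wT cs hsh hm (Or.inr rfl))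
    have la_lt : cs.length a < M s h :=
      lt_of_le_of_ne la_le fun e => ha' (eq_wT_of_len cs hsh hm ha e)
    exact junc_big hC hI hD h0 hsh hm hmN hx₁ hy₁ hx₁N hy₁N ha hb ha' hb' hsa hsb (by omega)
      (by omega) (by omega) (by omega)
  · -- `m ≤ N`
    have hl : cs.length a + cs.length b + 2 ≤ 2 * M s h := by
      by_cases e : a = wT cs s h
      · have := haw e
        omega
      · have la_lt : cs.length a < M s h :=
          lt_of_le_of_ne la_le fun e' => e (eq_wT_of_len cs hsh hm ha e')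
        omega
    exact lat_mono (by omega) (junc_small hD hsh hm hmN hx₁ hy₁ hx₁N hy₁N ha hb hsa hsb
      (by omega) hl (by omega))

theorem a0_step (hd : HDich cs) (hC : IsKL cs C) (hI : IdealN cs C N) (hN : 2 ≤ N) (n : ℕ)
    (hD : DHyp cs C N (n + 1)) (h0 : A0S cs C N n) (h1 : A1S cs C N n) :
    A0S cs C N (n + 1) := by
  intro x y hxy
  by_cases hx : Fac cs N x
  · exact lat_mono (by omega) (fac_left_lat hC hI hx fun z hz => h0 z y (by omega))
  by_cases hy : Fac cs N y
  · exact lat_mono (by omega) (fac_right_lat hC hI hy fun z hz => h0 x z (by omega))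
  by_cases hg : ∃ g, cs.IsRightDescent x g ∧ cs.IsLeftDescent y g
  · obtain ⟨g, hgx, hgy⟩ := hg
    have lx := cs.isRightDescent_iff.mp hgx
    have ly := cs.isLeftDescent_iff.mp hgy
    refine common_lat hgx hgy (h0 _ _ (by omega)) (h1 _ _ g (by omega) ?_ ?_)
    · rw [cs.not_isRightDescent_iff, cs.simple_mul_simple_cancel_right]; omega
    · rw [cs.not_isLeftDescent_iff, cs.simple_mul_simple_cancel_left]; omega
  · push Not at hg
    exact lat_mono (by omega) (nocommon_lat hd hC hI hN hD h0 hx hy hxy hg)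

theorem a0p_step (hd : HDich cs) (hC : IsKL cs C) (hI : IdealN cs C N) (hN : 2 ≤ N) (n : ℕ)
    (hD : DHyp cs C N (n + 1)) (h0 : A0S cs C N n) (h0p : A0pS cs C N n) (h1p : A1pS cs C N n) :
    A0pS cs C N (n + 1) := by
  intro x y hxy hxN
  by_cases hy : Fac cs N y
  · exact lat_mono (by omega) (fac_right_lat hC hI hy fun z hz => h0 x z (by omega))
  by_cases hg : ∃ g, cs.IsRightDescent x g ∧ cs.IsLeftDescent y g
  · obtain ⟨g, hgx, hgy⟩ := hg
    have lx := cs.isRightDescent_iff.mp hgx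
    have ly := cs.isLeftDescent_iff.mp hgy
    have ex : x * cs.simple g * cs.simple g = x := cs.simple_mul_simple_cancel_right g
    refine common_lat hgx hgy (h0p _ _ (by omega) ?_) ?_
    · refine le_prefix cs (y := cs.simple g) ?_ (by rw [ex]; exact hxN)
      unfold Red
      rw [ex, cs.length_simple]
      exact lx.symm
    · rw [sub_sub]
      refine h1p _ _ g (by omega) ?_ ?_ (by rw [ex]; exact hxN)
      · rw [cs.not_isRightDescent_iff, ex]; omega
      · rw [cs.not_isLeftDescent_iff, cs.simple_mul_simple_cancel_left]; omega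
  · push Not at hg
    exact nocommon_lat hd hC hI hN hD h0 (le_mono cs (Nat.sub_le _ _) hxN) hy hxy hg

/-- the data of a triple `x, g, y` -/
private theorem EStep_data {x y : W} {g h : B} (hgh : g ≠ h) (hm : M g h ≠ 0)
    (hxg : ¬ cs.IsRightDescent x g) (hyg : ¬ cs.IsLeftDescent y g)
    (hxh : cs.IsRightDescent x h) :
    ∃ x₁ a b y₁, Rmin cs g h x₁ ∧ Lmin cs g h y₁ ∧ a ∈ D cs g h ∧ b ∈ D cs g h ∧
      x * cs.simple g = x₁ * a ∧ cs.simple g * y = cs.simple g * b * y₁ ∧
      cs.IsRightDescent a g ∧ ¬ cs.IsLeftDescent b g ∧ 2 ≤ cs.length a ∧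
      cs.length a ≤ M g h ∧ cs.length b + 1 ≤ M g h ∧ cs.length (cs.simple g * b) = cs.length b + 1 ∧
      cs.length x + 1 = cs.length x₁ + cs.length a ∧ cs.length y = cs.length b + cs.length y₁ ∧
      cs.simple g * b ∈ D cs g h ∧
      T cs x * T cs (cs.simple g) * T cs y = T cs x₁ * T cs a * T cs b * T cs y₁ := by
  obtain ⟨x₁, a', hx₁, ha', rfl⟩ := decompR cs hgh x
  obtain ⟨b, y₁, hy₁, hb, rfl⟩ := decompL cs hgh y
  have hgD : cs.simple g ∈ D cs g h := simple_mem_D (Or.inl rfl)
  rw [rd_mul_D cs hgh (Or.inr rfl) hx₁ ha'] at hxh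
  rw [rd_mul_D cs hgh (Or.inl rfl) hx₁ ha'] at hxg
  rw [ld_D_mul cs hgh (Or.inl rfl) hy₁ hb] at hyg
  have hlx := len_mul_D cs hgh hx₁ ha'
  have hly := len_D_mul cs hgh hy₁ hb
  have hla' : 1 ≤ cs.length a' := by
    have := (cs.isRightDescent_iff).1 hxh
    omega
  have ha : a' * cs.simple g ∈ D cs g h := Subgroup.mul_mem _ ha' hgD
  have hsb : cs.simple g * b ∈ D cs g h := Subgroup.mul_mem _ hgD hb
  have hla : cs.length (a' * cs.simple g) = cs.length a' + 1 := (cs.not_isRightDescent_iff).1 hxg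
  have hlsb : cs.length (cs.simple g * b) = cs.length b + 1 := (cs.not_isLeftDescent_iff).1 hyg
  have hag : cs.IsRightDescent (a' * cs.simple g) g := by
    rw [cs.isRightDescent_iff, cs.simple_mul_simple_cancel_right]
    exact hla.symm
  have hlam := len_D_le cs hgh hm ha
  have hlbm := len_D_le cs hgh hm hsb
  have hT : T cs (x₁ * a') * T cs (cs.simple g) * T cs (b * y₁) =
      T cs x₁ * T cs (a' * cs.simple g) * T cs b * T cs y₁ := by
    rw [← T_mul_T cs (show Red cs x₁ a' from hlx), ← T_mul_T cs (show Red cs b y₁ from hly),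
      ← T_mul_s cs hxg]
    simp only [mul_assoc]
  exact ⟨x₁, a' * cs.simple g, b, y₁, hx₁, hy₁, ha, hb, by rw [mul_assoc], by rw [mul_assoc],
    hag, hyg, by omega, hlam, by omega, hlsb, by omega, hly, hsb, hT⟩

/-- the triple `x, g, y`: the two cases in which the bound `N - 2` holds, and the remaining case. -/
private theorem EStep_triple (hC : IsKL cs C) (hI : IdealN cs C N)
    {n : ℕ} (hD : DHyp cs C N (n + 1)) (h0 : A0S cs C N n) {x y : W} {g h : B}
    (hgh : g ≠ h) (hm : M g h ≠ 0)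
    (hlen : cs.length x + cs.length y + 1 ≤ n + 1)
    (hxg : ¬ cs.IsRightDescent x g) (hyg : ¬ cs.IsLeftDescent y g)
    (hxh : cs.IsRightDescent x h)
    (hxN : Le cs N (x * cs.simple g)) (hyN : Le cs N (cs.simple g * y)) {k : ℤ}
    (hk : (N : ℤ) - 2 ≤ k)
    (H : ∀ x₁ y₁ : W, Rmin cs g h x₁ → Lmin cs g h y₁ → x * cs.simple g = x₁ * wT cs g h →
      cs.simple g * y = wT cs g h * y₁ → M g h ≤ N → cs.length x + 1 = cs.length x₁ + M g h →
      cs.length y + 1 = M g h + cs.length y₁ →
      (∀ d, d = g ∨ d = h → Lat cs C N k (T cs x₁ * T cs (cs.simple d) * T cs y₁)) ∧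
      (∀ u, u ∈ D cs g h → 2 ≤ cs.length u →
        Lat cs C N (k + 1 - cs.length u) (T cs x₁ * T cs u * T cs y₁))) :
    Lat cs C N k (T cs x * T cs (cs.simple g) * T cs y) := by
  obtain ⟨x₁, a, b, y₁, hx₁, hy₁, ha, hb, hxa, hyb, hag, hbg, hla2, hlam, hlbm, hlsb, hlx, hly,
    hsbD, hT⟩ := EStep_data hgh hm hxg hyg hxh
  have h2m := two_le_exp hgh hm
  have hx₁N : Le cs N x₁ :=
    le_prefix cs (show Red cs x₁ a from len_mul_D cs hgh hx₁ ha) (by rw [← hxa]; exact hxN)
  have hy₁N : Le cs N y₁ :=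
    le_suffix cs (show Red cs (cs.simple g * b) y₁ from len_D_mul cs hgh hy₁ hsbD)
      (by rw [← hyb]; exact hyN)
  have hwD := wT_mem cs g h
  rw [hT]
  rcases Nat.lt_or_ge N (M g h) with hmN | hmN
  · have haw : a ≠ wT cs g h := by
      intro e
      rw [hxa, e] at hxN
      refine hxN (fac_of_both cs hgh hmN ?_ ?_)
      · rw [rd_mul_D cs hgh (Or.inl rfl) hx₁ hwD]
        exact rd_wT cs hgh hm (Or.inl rfl)
      · rw [rd_mul_D cs hgh (Or.inr rfl) hx₁ hwD]
        exact rd_wT cs hgh hm (Or.inr rfl)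
    have hsbw : cs.simple g * b ≠ wT cs g h := by
      intro e
      rw [hyb, e] at hyN
      refine hyN (fac_of_both_left cs hgh hmN ?_ ?_)
      · rw [ld_D_mul cs hgh (Or.inl rfl) hy₁ hwD]
        exact ld_wT cs hgh hm (Or.inl rfl)
      · rw [ld_D_mul cs hgh (Or.inr rfl) hy₁ hwD]
        exact ld_wT cs hgh hm (Or.inr rfl)
    have hla2 : cs.length a ≠ M g h := fun e => haw (eq_wT_of_len cs hgh hm ha e)
    have hlb2 : cs.length (cs.simple g * b) ≠ M g h :=
      fun e => hsbw (eq_wT_of_len cs hgh hm hsbD e)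
    have hbw : b ≠ wT cs g h := by
      intro e
      have := length_wT cs (i := g) (j := h) hgh
      rw [← e] at this
      omega
    exact junc_big hC hI hD h0 hgh hm hmN hx₁ hy₁ hx₁N hy₁N ha hb haw hbw hag hbg (by omega)
      (by omega) hk (by omega)
  · by_cases hs : cs.length a + cs.length b + 2 ≤ 2 * M g h
    · exact lat_mono hk (junc_small hD hgh hm hmN hx₁ hy₁ hx₁N hy₁N ha hb hag hbg (by omega) hs
        (by omega))
    · have ham : cs.length a = M g h := by omega
      have hbm : cs.length (cs.simple g * b) = M g h := by omega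
      have haw := eq_wT_of_len cs hgh hm ha ham
      have hbw := eq_wT_of_len cs hgh hm hsbD hbm
      rw [haw] at hxa
      rw [hbw] at hyb
      obtain ⟨H1, H2⟩ := H x₁ y₁ hx₁ hy₁ hxa hyb hmN (by omega) (by omega)
      exact junc_top hgh hm ha hb hag hbg (by omega) H1 H2

theorem a1_step (hd : HDich cs) (hC : IsKL cs C) (hI : IdealN cs C N) (hN : 2 ≤ N) (n : ℕ)
    (hD : DHyp cs C N (n + 1)) (h0 : A0S cs C N n) (h1 : A1S cs C N n) :
    A1S cs C N (n + 1) := by
  intro x y g hlen hxg hyg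
  have hlxg := (cs.not_isRightDescent_iff).1 hxg
  have hlyg := (cs.not_isLeftDescent_iff).1 hyg
  by_cases hxN : Fac cs N (x * cs.simple g)
  · rw [T_mul_s cs hxg]
    exact fac_left_lat hC hI hxN fun z hz => h0 z y (by omega)
  by_cases hyN : Fac cs N (cs.simple g * y)
  · rw [mul_assoc, s_mul_T cs hyg]
    exact fac_right_lat hC hI hyN fun z hz => h0 x z (by omega)
  rcases hd hxg hyg with hred | ⟨h, hhg, hm, hxh⟩
  · rw [T_mul_s cs hxg, T_mul_T cs (show Red cs (x * cs.simple g) y by unfold Red; omega)]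
    exact lat_mono (by omega) (lat_T hC _)
  · have hgh : g ≠ h := fun e => hhg e.symm
    refine EStep_triple hC hI hD h0 hgh hm hlen hxg hyg hxh hxN hyN (by omega) ?_
    intro x₁ y₁ hx₁ hy₁ hxa hyb hmN hlx hly
    have h2m := two_le_exp hgh hm
    refine ⟨fun d hd => h1 x₁ y₁ d (by omega) ?_ ?_, fun u hu h2 => ?_⟩
    · rcases hd with rfl | rfl
      · exact hx₁.1
      · exact hx₁.2
    · rcases hd with rfl | rfl
      · exact hy₁.1
      · exact hy₁.2
    · have hul := len_D_le cs hgh hm hu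
      have hx₁N : Le cs N x₁ :=
        le_prefix cs (show Red cs x₁ (wT cs g h) from len_mul_D cs hgh hx₁ (wT_mem cs g h))
          (by rw [← hxa]; exact hxN)
      have hy₁N : Le cs N y₁ :=
        le_suffix cs (show Red cs (wT cs g h) y₁ from len_D_mul cs hgh hy₁ (wT_mem cs g h))
          (by rw [← hyb]; exact hyN)
      exact lat_mono (by omega) (hD.small hgh hm hmN hx₁ hy₁ hx₁N hy₁N hu h2 (by omega))

theorem a1p_step (hd : HDich cs) (hC : IsKL cs C) (hI : IdealN cs C N) (hN : 2 ≤ N) (n : ℕ)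
    (hD : DHyp cs C N (n + 1)) (h0 : A0S cs C N n) (h0p : A0pS cs C N n) (h1p : A1pS cs C N n) :
    A1pS cs C N (n + 1) := by
  intro x y g hlen hxg hyg hxN1
  have hlxg := (cs.not_isRightDescent_iff).1 hxg
  have hlyg := (cs.not_isLeftDescent_iff).1 hyg
  have hxN : Le cs N (x * cs.simple g) := le_mono cs (Nat.sub_le _ _) hxN1
  by_cases hyN : Fac cs N (cs.simple g * y)
  · rw [mul_assoc, s_mul_T cs hyg]
    have hx : Le cs (N - 1) x := le_prefix cs (y := cs.simple g)
      (by unfold Red; rw [cs.length_simple]; exact hlxg) hxN1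
    refine lat_mono (by omega) (fac_right_lat (k := (N : ℤ) - 1) hC hI hyN fun z hz =>
      h0p x z (by omega) hx)
  rcases hd hxg hyg with hred | ⟨h, hhg, hm, hxh⟩
  · rw [T_mul_s cs hxg, T_mul_T cs (show Red cs (x * cs.simple g) y by unfold Red; omega)]
    exact lat_mono (by omega) (lat_T hC _)
  · have hgh : g ≠ h := fun e => hhg e.symm
    refine EStep_triple hC hI hD h0 hgh hm hlen hxg hyg hxh hxN hyN (by omega) ?_
    intro x₁ y₁ hx₁ hy₁ hxa hyb hmN hlx hly
    have h2m := two_le_exp hgh hm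
    rw [hxa] at hxN1
    rw [hyb] at hyN
    have hwD := wT_mem cs g h
    have hmN' : M g h < N := by
      rcases Nat.lt_or_ge (M g h) N with hlt | hge
      · exact hlt
      · exfalso
        refine hxN1 (fac_of_both cs hgh (show N - 1 < M g h by omega) ?_ ?_)
        · rw [rd_mul_D cs hgh (Or.inl rfl) hx₁ hwD]
          exact rd_wT cs hgh hm (Or.inl rfl)
        · rw [rd_mul_D cs hgh (Or.inr rfl) hx₁ hwD]
          exact rd_wT cs hgh hm (Or.inr rfl)
    refine ⟨fun d hd => h1p x₁ y₁ d (by omega) ?_ ?_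
      (le_prefix_D hgh hm hx₁ (simple_mem_D hd) hxN1), fun u hu h2 => ?_⟩
    · rcases hd with rfl | rfl
      · exact hx₁.1
      · exact hx₁.2
    · rcases hd with rfl | rfl
      · exact hy₁.1
      · exact hy₁.2
    · have hul := len_D_le cs hgh hm hu
      exact lat_mono (by omega) (hD.small' hgh hm hmN' hx₁ hy₁ hxN1 hyN hu h2 (by omega))

private theorem EStep_one {x y : W} (h : cs.length x + cs.length y ≤ 0) :
    T cs x * T cs y = T cs 1 := by
  have hx : x = 1 := cs.length_eq_zero_iff.1 (by omega)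
  have hy : y = 1 := cs.length_eq_zero_iff.1 (by omega)
  rw [hx, hy, ← one_def', one_mul]

theorem estep_all (hd : HDich cs) (hC : IsKL cs C) (hI : IdealN cs C N) (hN : 2 ≤ N)
    (hD : ∀ n, A0S cs C N n → A1S cs C N n → A0pS cs C N n → A1pS cs C N n →
      DHyp cs C N (n + 1)) (n : ℕ) :
    A0S cs C N n ∧ A1S cs C N n ∧ A0pS cs C N n ∧ A1pS cs C N n := by
  induction n with
  | zero =>
    refine ⟨fun x y h => ?_, fun x y g h => ?_, fun x y h _ => ?_, fun x y g h => ?_⟩
    · rw [EStep_one h]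
      exact lat_mono (by omega) (lat_T hC 1)
    · omega
    · rw [EStep_one h]
      exact lat_mono (by omega) (lat_T hC 1)
    · omega
  | succ n ih =>
    obtain ⟨h0, h1, h0p, h1p⟩ := ih
    have hDn := hD n h0 h1 h0p h1p
    exact ⟨a0_step hd hC hI hN n hDn h0 h1, a1_step hd hC hI hN n hDn h0 h1,
      a0p_step hd hC hI hN n hDn h0 h0p h1p, a1p_step hd hC hI hN n hDn h0 h0p h1p⟩

end Pool.Agent.PolyCell
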