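import Pool.Agent.PolyTri.T3
import Pool.Agent.PolyCell.Poly

/-!
# Triangles with all labels `≥ 3`, not all `3`
-/

open CoxeterSystem

namespace Pool.Agent.PolyCell

theorem poly_T3 {M : CoxeterMatrix (ZMod 3)} {a : ZMod 3 → ℕ} (h : IsPolygon M a)
    (h3 : ∀ k, 3 ≤ a k) (h4 : ∃ k, a k ≠ 3) : T3 M := by
  have hadj : ∀ i j : ZMod 3, i ≠ j → j = i + 1 ∨ i = j + 1 := by decide
  have hv : ∀ i j : ZMod 3, j = i + 1 → M i j = a i ∧ M j i = a i := by
    rintro i j rfl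
    exact ⟨h.1 i, by rw [M.symmetric (i + 1) i]; exact h.1 i⟩
  have hge : ∀ i j : ZMod 3, i ≠ j → 3 ≤ M i j := by
    intro i j hij
    rcases hadj i j hij with e | e
    · rw [(hv i j e).1]; exact h3 i
    · rw [(hv j i e).2]; exact h3 j
  refine ⟨?_, hge, ?_⟩
  · intro i j
    by_cases hij : i = j
    · subst hij
      rw [M.diagonal]
      exact one_ne_zero
    · have := hge i j hij
      omega
  · intro x y z hxy hyz hxz m1 m2 m3
    obtain ⟨k, hk⟩ := h4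
    apply hk
    have hcase : ∀ x y z k : ZMod 3, x ≠ y → y ≠ z → x ≠ z →
        (k = x ∧ k + 1 = y) ∨ (k = x ∧ k + 1 = z) ∨ (k = y ∧ k + 1 = x) ∨ (k = y ∧ k + 1 = z) ∨
        (k = z ∧ k + 1 = x) ∨ (k = z ∧ k + 1 = y) := by decide
    have h1 := h.1 k
    rcases hcase x y z k hxy hyz hxz with ⟨e, e'⟩ | ⟨e, e'⟩ | ⟨e, e'⟩ | ⟨e, e'⟩ | ⟨e, e'⟩ | ⟨e, e'⟩ <;>
      rw [← h1, e', e]
    · exact m1
    · exact m3
    · rw [M.symmetric]; exact m1
    · exact m2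
    · rw [M.symmetric]; exact m3
    · rw [M.symmetric]; exact m2

end Pool.Agent.PolyCell
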