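import Pool.Agent.PolyCell.Dih3
import Pool.Agent.PolyCell.FacCl

/-!
# Coxeter groups with all labels finite, `≥ 3`, and no `(3,3,3)` triangle: descents

`t3_D`: there is no `w` with `a, b ∈ R(w)` and `c ∈ R(w s_a)` (`a, b, c` different). Consequences: no three descents, and
`R(x u) ⊆ T` for `x` rmin, `u ∈ D_T`, `ℓ(u) ≥ 2`.
-/

open CoxeterSystem

namespace Pool.Agent.PolyCell

variable {B W : Type*} [Group W] {M : CoxeterMatrix B} (cs : CoxeterSystem M W)

/-- all labels are finite and at least `3`, no three equal to `3` -/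
structure T3 (M : CoxeterMatrix B) : Prop where
  fin : ∀ i j : B, M i j ≠ 0
  ge : ∀ i j : B, i ≠ j → 3 ≤ M i j
  not3 : ∀ a b c : B, a ≠ b → b ≠ c → a ≠ c → M a b = 3 → M b c = 3 → M a c = 3 → False

theorem rd_simple_self (i : B) : cs.IsRightDescent (cs.simple i) i := by
  unfold CoxeterSystem.IsRightDescent
  rw [cs.simple_mul_simple_self, cs.length_one, cs.length_simple]
  exact Nat.zero_lt_one

theorem rd_simple {g k : B} (h : cs.IsRightDescent (cs.simple g) k) : k = g := by
  by_contra hne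
  obtain ⟨h0, z, -, -, h3⟩ := both_rd cs hne h (rd_simple_self cs g)
  have := two_le_exp hne h0
  rw [cs.length_simple] at h3
  omega

theorem rmin_inv {i j : B} {y : W} (hy : Lmin cs i j y) : Rmin cs i j y⁻¹ :=
  ⟨by rw [cs.isRightDescent_inv_iff]; exact hy.1, by rw [cs.isRightDescent_inv_iff]; exact hy.2⟩

theorem lmin_inv {i j : B} {x : W} (hx : Rmin cs i j x) : Lmin cs i j x⁻¹ :=
  ⟨by rw [cs.isLeftDescent_inv_iff]; exact hx.1, by rw [cs.isLeftDescent_inv_iff]; exact hx.2⟩

/-- `k ∈ R(y)` and `x y` reduced: `k ∈ R(x y)` -/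
theorem rd_mul_of_red {x y : W} {k : B} (h : Red cs x y) (hk : cs.IsRightDescent y k) :
    cs.IsRightDescent (x * y) k := by
  have h1 := cs.isRightDescent_iff.1 hk
  have h2 := cs.length_mul_le x (y * cs.simple k)
  have h3 : cs.length (x * y) = cs.length x + cs.length y := h
  show cs.length (x * y * cs.simple k) < cs.length (x * y)
  rw [mul_assoc]
  omega

theorem ld_mul_of_red {x y : W} {k : B} (h : Red cs x y) (hk : cs.IsLeftDescent x k) :
    cs.IsLeftDescent (x * y) k := by
  have h1 := cs.isLeftDescent_iff.1 hk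
  have h2 := cs.length_mul_le (cs.simple k * x) y
  have h3 : cs.length (x * y) = cs.length x + cs.length y := h
  show cs.length (cs.simple k * (x * y)) < cs.length (x * y)
  rw [← mul_assoc]
  omega

/-- (D) -/
theorem t3_D (hM : T3 M) {w : W} {a b c : B} (hab : a ≠ b) (hbc : b ≠ c) (hac : a ≠ c)
    (ha : cs.IsRightDescent w a) (hb : cs.IsRightDescent w b)
    (hc : cs.IsRightDescent (w * cs.simple a) c) : False := by
  induction hn : cs.length w using Nat.strong_induction_on generalizing w a b c with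
  | _ n ih =>
    subst hn
    have h1 := rd_of_both cs hab.symm hb ha
    have h2 := rd_of_both' cs hab.symm (hM.ge b a hab.symm) hb ha
    have h3 := cs.isRightDescent_iff.1 ha
    exact ih (cs.length (w * cs.simple a)) (by omega) hbc hac.symm hab.symm h1 hc h2 rfl

/-- (D), left -/
theorem t3_D_left (hM : T3 M) {w : W} {a b c : B} (hab : a ≠ b) (hbc : b ≠ c) (hac : a ≠ c)
    (ha : cs.IsLeftDescent w a) (hb : cs.IsLeftDescent w b)
    (hc : cs.IsLeftDescent (cs.simple a * w) c) : False := by
  rw [← cs.isRightDescent_inv_iff] at ha hb hc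
  rw [mul_inv_rev, cs.inv_simple] at hc
  exact t3_D cs hM hab hbc hac ha hb hc

/-- no three right descents -/
theorem t3_no_three (hM : T3 M) {w : W} {a b c : B} (ha : cs.IsRightDescent w a)
    (hb : cs.IsRightDescent w b) (hc : cs.IsRightDescent w c) : a = b ∨ b = c ∨ a = c := by
  by_contra hcon
  push Not at hcon
  obtain ⟨hab, hbc, hac⟩ := hcon
  exact t3_D cs hM hab hbc hac ha hb (rd_of_both cs hac.symm hc ha)

/-- (K) -/
theorem t3_rd_long (hM : T3 M) {i j k : B} (hij : i ≠ j) {x u : W} (hx : Rmin cs i j x)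
    (hu : u ∈ D cs i j) (h2 : 2 ≤ cs.length u) (h : cs.IsRightDescent (x * u) k) :
    k = i ∨ k = j := by
  by_contra hk
  push Not at hk
  obtain ⟨hki, hkj⟩ := hk
  have hu1 : u ≠ 1 := by
    rintro rfl
    simp at h2
  obtain ⟨t, ht⟩ := cs.exists_rightDescent_of_ne_one hu1
  obtain ⟨s, hst, hs, ht', hsd⟩ := rd_prev cs hij hu h2 ht
  have hkt : k ≠ t := by rcases ht' with rfl | rfl <;> assumption
  have hks : k ≠ s := by rcases hs with rfl | rfl <;> assumption
  have hsD : cs.simple t ∈ D cs i j := by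
    rcases ht' with rfl | rfl <;> exact Subgroup.subset_closure (by simp)
  have htx : cs.IsRightDescent (x * u) t := (rd_mul_D cs hij ht' hx hu).2 ht
  have h3 : cs.IsRightDescent (x * u * cs.simple t) s := by
    rw [mul_assoc]
    exact (rd_mul_D cs hij hs hx (mul_mem hu hsD)).2 hsd
  exact t3_D cs hM hkt.symm hks hst.symm htx h h3

theorem t3_ld_long (hM : T3 M) {i j k : B} (hij : i ≠ j) {y u : W} (hy : Lmin cs i j y)
    (hu : u ∈ D cs i j) (h2 : 2 ≤ cs.length u) (h : cs.IsLeftDescent (u * y) k) :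
    k = i ∨ k = j := by
  rw [← cs.isRightDescent_inv_iff, mul_inv_rev] at h
  exact t3_rd_long cs hM hij (rmin_inv cs hy) (inv_mem hu) (by rwa [cs.length_inv]) h

end Pool.Agent.PolyCell
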