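import Pool.Agent.PolyTri.T3Triple
import Pool.Agent.PolyTri.EStep

/-!
# `T_x T_t T_s T_y` is in `Lat 1`
-/

open CoxeterSystem

namespace Pool.Agent.PolyCell

variable {B W : Type*} [Group W] {M : CoxeterMatrix B} (cs : CoxeterSystem M W)

theorem ld_of_both {i j : B} (hij : i ≠ j) {w : W} (h1 : cs.IsLeftDescent w i)
    (h2 : cs.IsLeftDescent w j) : cs.IsLeftDescent (cs.simple j * w) i := by
  rw [← cs.isRightDescent_inv_iff] at h1 h2 ⊢
  rw [mul_inv_rev, cs.inv_simple]
  exact rd_of_both cs hij h1 h2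

theorem ld_of_both' {i j : B} (hij : i ≠ j) (hm : 3 ≤ M i j) {w : W}
    (h1 : cs.IsLeftDescent w i) (h2 : cs.IsLeftDescent w j) :
    cs.IsLeftDescent (cs.simple i * (cs.simple j * w)) j := by
  rw [← cs.isRightDescent_inv_iff] at h1 h2 ⊢
  rw [mul_inv_rev, mul_inv_rev, cs.inv_simple, cs.inv_simple]
  exact rd_of_both' cs hij hm h1 h2

/-- `R(X s_j) = {i}` if `i, j ∈ R(X)` -/
theorem rd_K1 (hM : T3 M) {i j k : B} (hij : i ≠ j) {X : W} (h1 : cs.IsRightDescent X i)
    (h2 : cs.IsRightDescent X j) (hk : cs.IsRightDescent (X * cs.simple j) k) : k = i := by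
  obtain ⟨hm, z, hz, hX, hl⟩ := both_rd cs hij h1 h2
  have h3 := hM.ge i j hij
  have hu : wT cs i j * cs.simple j ∈ D cs i j :=
    Subgroup.mul_mem _ (wT_mem cs i j) (simple_mem_D' cs (Or.inr rfl))
  have h4 := cs.isRightDescent_iff.1 (rd_wT cs hij hm (Or.inr rfl))
  rw [length_wT cs hij] at h4
  have h5 : cs.IsRightDescent (z * (wT cs i j * cs.simple j)) k := by
    rw [← mul_assoc, ← hX]; exact hk
  rcases t3_rd_long cs hM hij hz hu (by omega) h5 with e | e
  · exact e
  · exfalso
    subst e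
    have h6 := cs.isRightDescent_iff.1 hk
    have h7 := cs.isRightDescent_iff.1 h2
    rw [cs.simple_mul_simple_cancel_right] at h6
    omega

/-- `R(X s_j s_i) = {j}` if `i, j ∈ R(X)` and `m_{ij} ≥ 4` -/
theorem rd_K2 (hM : T3 M) {i j k : B} (hij : i ≠ j) (h4 : 4 ≤ M i j) {X : W}
    (h1 : cs.IsRightDescent X i) (h2 : cs.IsRightDescent X j)
    (hk : cs.IsRightDescent (X * cs.simple j * cs.simple i) k) : k = j := by
  obtain ⟨hm, z, hz, hX, hl⟩ := both_rd cs hij h1 h2
  have hu : wT cs i j * cs.simple j * cs.simple i ∈ D cs i j :=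
    Subgroup.mul_mem _ (Subgroup.mul_mem _ (wT_mem cs i j) (simple_mem_D' cs (Or.inr rfl)))
      (simple_mem_D' cs (Or.inl rfl))
  have h5 := cs.isRightDescent_iff.1 h2
  have h6 := rd_of_both cs hij h1 h2
  have h7 := cs.isRightDescent_iff.1 h6
  have h8 : X * cs.simple j * cs.simple i = z * (wT cs i j * cs.simple j * cs.simple i) := by
    rw [hX]; simp only [mul_assoc]
  have h9 := len_mul_D cs hij hz hu
  rw [← h8] at h9
  rw [h8] at hk
  rcases t3_rd_long cs hM hij hz hu (by omega) hk with e | e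
  · exfalso
    subst e
    rw [← h8] at hk
    have h6 := cs.isRightDescent_iff.1 hk
    rw [cs.simple_mul_simple_cancel_right] at h6
    omega
  · exact e

theorem ld_K1 (hM : T3 M) {i j k : B} (hij : i ≠ j) {X : W} (h1 : cs.IsLeftDescent X i)
    (h2 : cs.IsLeftDescent X j) (hk : cs.IsLeftDescent (cs.simple j * X) k) : k = i := by
  rw [← cs.isRightDescent_inv_iff] at h1 h2 hk
  rw [mul_inv_rev, cs.inv_simple] at hk
  exact rd_K1 cs hM hij h1 h2 hk

theorem ld_K2 (hM : T3 M) {i j k : B} (hij : i ≠ j) (h4 : 4 ≤ M i j) {X : W}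
    (h1 : cs.IsLeftDescent X i) (h2 : cs.IsLeftDescent X j)
    (hk : cs.IsLeftDescent (cs.simple i * (cs.simple j * X)) k) : k = j := by
  rw [← cs.isRightDescent_inv_iff] at h1 h2 hk
  rw [mul_inv_rev, mul_inv_rev, cs.inv_simple, cs.inv_simple] at hk
  exact rd_K2 cs hM hij h4 h1 h2 hk

/-- last letters of `a ∈ D`, `a` ends with `t`, `ℓ(a) ≥ 2`: `s ∈ R(a s_t)` -/
theorem rd_second {s t : B} (hst : s ≠ t) {a : W} (ha : a ∈ D cs s t) (h2 : 2 ≤ cs.length a)
    (hat : cs.IsRightDescent a t) : cs.IsRightDescent (a * cs.simple t) s := by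
  obtain ⟨s', h1, h3, -, h4⟩ := rd_prev cs hst ha h2 hat
  rcases h3 with rfl | rfl
  · exact h4
  · exact absurd rfl h1

theorem ld_second {s t : B} (hst : s ≠ t) {a : W} (ha : a ∈ D cs s t) (h2 : 2 ≤ cs.length a)
    (hat : cs.IsLeftDescent a t) : cs.IsLeftDescent (cs.simple t * a) s := by
  rw [← cs.isRightDescent_inv_iff] at hat ⊢
  rw [mul_inv_rev, cs.inv_simple]
  exact rd_second cs hst (Subgroup.inv_mem _ ha) (by rw [cs.length_inv]; exact h2) hat

/-- (B3): the two products are reduced -/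
theorem t3_B3 (hM : T3 M) {t s r : B} (hts : t ≠ s) (hrt : r ≠ t) (hrs : r ≠ s) {X Y : W}
    (hXt : cs.IsRightDescent X t) (hXr : cs.IsRightDescent X r) (hYs : cs.IsLeftDescent Y s)
    (hYr : cs.IsLeftDescent Y r) :
    Red cs (X * cs.simple r) (cs.simple r * Y) ∧
      Red cs (X * cs.simple r * cs.simple r) (cs.simple r * Y) := by
  have hlX := cs.isRightDescent_iff.1 hXr
  have hlY := cs.isLeftDescent_iff.1 hYr
  have hXr' : ¬ cs.IsRightDescent (X * cs.simple r) r := by
    rw [cs.not_isRightDescent_iff, cs.simple_mul_simple_cancel_right]; exact hlX.symm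
  have hYr' : ¬ cs.IsLeftDescent (cs.simple r * Y) r := by
    rw [cs.not_isLeftDescent_iff, cs.simple_mul_simple_cancel_left]; exact hlY.symm
  have F1 : ∀ h, cs.IsRightDescent (X * cs.simple r) h → h = t :=
    fun h hh => rd_K1 cs hM hrt.symm hXt hXr hh
  have F2 : ∀ h, cs.IsLeftDescent (cs.simple r * Y) h → h = s :=
    fun h hh => ld_K1 cs hM hrs.symm hYs hYr hh
  constructor
  · -- `X'' Y''`
    have hYs' : cs.IsLeftDescent (cs.simple r * Y) s := ld_of_both cs hrs.symm hYs hYr
    have hlYs := cs.isLeftDescent_iff.1 hYs'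
    set Y3 := cs.simple s * (cs.simple r * Y) with hY3
    have hY3s : ¬ cs.IsLeftDescent Y3 s := by
      rw [cs.not_isLeftDescent_iff, hY3, cs.simple_mul_simple_cancel_left]; exact hlYs.symm
    have hXs' : ¬ cs.IsRightDescent (X * cs.simple r) s := fun h => hts (F1 s h).symm
    rcases t3_dich cs hM hXs' hY3s with h | h
    · unfold Red
      have e : X * cs.simple r * cs.simple s * Y3 = X * cs.simple r * (cs.simple r * Y) := by
        rw [mul_assoc (X * cs.simple r), hY3, cs.simple_mul_simple_cancel_left]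
      rw [e] at h
      omega
    · exfalso
      obtain ⟨h, hhs, hxh, hyh, x1, a, b, y4, hx1, ha, hxa, hb, hy4, hyb, hl⟩ := h
      obtain rfl := F1 h hxh
      -- now `h = t`
      have hY3r : cs.IsLeftDescent Y3 r := ld_of_both' cs hrs.symm (hM.ge s r hrs.symm) hYs hYr
      have hbt : cs.IsLeftDescent b h := by
        rw [hyb] at hyh
        exact (ld_D_mul cs hts.symm (Or.inr rfl) hy4 hb).1 hyh
      have hlb : cs.length b ≤ 1 := by
        by_contra hcon
        push Not at hcon
        have h5 := ld_second cs hts.symm hb hcon hbt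
        have h6 : cs.simple h * b ∈ D cs s h :=
          Subgroup.mul_mem _ (simple_mem_D' cs (Or.inr rfl)) hb
        have h7 : cs.IsLeftDescent (cs.simple h * Y3) s := by
          rw [hyb, ← mul_assoc]
          exact (ld_D_mul cs hts.symm (Or.inl rfl) hy4 h6).2 h5
        exact t3_D_left cs hM hrt.symm hrs hts hyh hY3r h7
      have hMst := hM.ge s h hts.symm
      have hMsr : M s r = 3 := by
        by_contra hcon
        have h4 := hM.ge s r hrs.symm
        have h5 := ld_K2 cs hM hrs.symm (by omega) hYs hYr hyh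
        exact hrt h5.symm
      have hat : cs.IsRightDescent a h := by
        rw [hxa] at hxh
        exact (rd_mul_D cs hts.symm (Or.inr rfl) hx1 ha).1 hxh
      have hla2 : 2 ≤ cs.length a := by omega
      have h8 : a * cs.simple h ∈ D cs s h :=
        Subgroup.mul_mem _ ha (simple_mem_D' cs (Or.inr rfl))
      have h9 : cs.IsRightDescent (X * cs.simple r * cs.simple h) s := by
        rw [hxa, mul_assoc]
        exact (rd_mul_D cs hts.symm (Or.inl rfl) hx1 h8).2 (rd_second cs hts.symm ha hla2 hat)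
      have hMtr : M h r = 3 := by
        by_contra hcon
        have h4 := hM.ge h r hrt.symm
        have h5 := rd_K2 cs hM hrt.symm (by omega) hXt hXr h9
        exact hrs h5.symm
      have h10 : cs.IsRightDescent (X * cs.simple r * cs.simple h) r :=
        rd_of_both' cs hrt.symm (hM.ge h r hrt.symm) hXt hXr
      have hla3 : cs.length a ≤ 2 := by
        by_contra hcon
        push Not at hcon
        have h11 := cs.isRightDescent_iff.1 hat
        have h12 : cs.IsRightDescent (a * cs.simple h) s := rd_second cs hts.symm ha hla2 hat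
        have h13 : a * cs.simple h ∈ D cs h s := by
          have : D cs h s = D cs s h := by unfold D; rw [Set.pair_comm]
          rw [this]; exact h8
        have h14 := rd_second cs hts h13 (by omega) h12
        have h15 : a * cs.simple h * cs.simple s ∈ D cs s h :=
          Subgroup.mul_mem _ h8 (simple_mem_D' cs (Or.inl rfl))
        have h16 : cs.IsRightDescent (X * cs.simple r * cs.simple h * cs.simple s) h := by
          have e : X * cs.simple r * cs.simple h * cs.simple s =
              x1 * (a * cs.simple h * cs.simple s) := by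
            rw [hxa]; simp only [mul_assoc]
          rw [e]
          exact (rd_mul_D cs hts.symm (Or.inr rfl) hx1 h15).2 h14
        exact t3_D cs hM hrs.symm hrt hts.symm h9 h10 h16
      have hMst3 : M s h = 3 := by omega
      refine hM.not3 s h r hts.symm hrt.symm hrs.symm hMst3 hMtr hMsr
  · rcases t3_dich cs hM hXr' hYr' with h | h
    · unfold Red
      have h1 := (cs.not_isRightDescent_iff).1 hXr'
      rw [h1]
      exact h
    · exfalso
      obtain ⟨h, -, hxh, hyh, -⟩ := h
      exact hts ((F1 h hxh).symm.trans (F2 h hyh))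

variable {cs} {C : W → Hk cs} {N : ℕ}

/-- `ℓ(u) ≥ 3`: `Lat 0` -/
theorem t3_lat_long (hM : T3 M) (hC : IsKL cs C) {i j : B} (hij : i ≠ j) {x y u : W}
    (hx : Rmin cs i j x) (hy : Lmin cs i j y) (hu : u ∈ D cs i j) (h3 : 3 ≤ cs.length u) :
    T cs x * T cs u * T cs y = T cs (x * u * y) := by
  have h1 : Red cs x u := len_mul_D cs hij hx hu
  have h2 : Red cs (x * u) y := by
    unfold Red
    rw [t3_B1 cs hM hij hx hy hu h3, h1]
  rw [T_mul_T cs h1, T_mul_T cs h2]

/-- an element of length two of `D` -/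
theorem len_two_D {i j : B} (hij : i ≠ j) {u : W} (hu : u ∈ D cs i j) (h : cs.length u = 2) :
    ∃ t s, t ≠ s ∧ (t = i ∧ s = j ∨ t = j ∧ s = i) ∧ u = cs.simple t * cs.simple s := by
  have hu1 : u ≠ 1 := by
    rintro rfl
    rw [cs.length_one] at h
    omega
  obtain ⟨t, u', ht, hu', he, hl, htu⟩ := head_D cs hij hu hu1
  obtain ⟨s, hs, rfl⟩ := len_one_D hij hu' (by omega)
  have hts : t ≠ s := by
    rintro rfl
    apply htu
    unfold CoxeterSystem.IsLeftDescent
    rw [cs.simple_mul_simple_self, cs.length_one, cs.length_simple]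
    exact Nat.zero_lt_one
  refine ⟨t, s, hts, ?_, he⟩
  rcases ht with rfl | rfl <;> rcases hs with rfl | rfl
  · exact absurd rfl hts
  · exact Or.inl ⟨rfl, rfl⟩
  · exact Or.inr ⟨rfl, rfl⟩
  · exact absurd rfl hts

/-- `ℓ(u) = 2`: `Lat 1`; and `Lat 0` unless some `ρ ≠ t, s` is in `R(x s_t)`. -/
theorem t3_lat_two (hM : T3 M) (hC : IsKL cs C) {t s : B} (hts : t ≠ s) {x y : W}
    (hx : Rmin cs t s x) (hy : Lmin cs t s y) :
    Lat cs C N 0 (T cs x * T cs (cs.simple t * cs.simple s) * T cs y) ∨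
      (Lat cs C N 1 (T cs x * T cs (cs.simple t * cs.simple s) * T cs y) ∧
        ∃ r, r ≠ t ∧ cs.IsRightDescent (x * cs.simple t) r) := by
  have hlx := (cs.not_isRightDescent_iff).1 hx.1
  have hly := (cs.not_isLeftDescent_iff).1 hy.2
  have htsl : Red cs (cs.simple t) (cs.simple s) := by
    unfold Red
    have hnt : ¬ cs.IsRightDescent (cs.simple t) s := fun h => hts (rd_simple cs h).symm
    rw [(cs.not_isRightDescent_iff).1 hnt, cs.length_simple, cs.length_simple]
  have e1 : T cs x * T cs (cs.simple t * cs.simple s) * T cs y =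
      T cs (x * cs.simple t) * T cs (cs.simple s * y) := by
    rw [← T_mul_T cs htsl, ← T_mul_s cs hx.1, ← s_mul_T cs hy.2]
    simp only [mul_assoc]
  rw [e1]
  rcases t3_B2 cs hM hts hx hy with h | ⟨r, hrt, hrs, hxr, hyr⟩
  · left
    have hred : Red cs (x * cs.simple t) (cs.simple s * y) := by
      unfold Red
      have e : x * cs.simple t * (cs.simple s * y) = x * (cs.simple t * cs.simple s) * y := by
        simp only [mul_assoc]
      rw [e, h, hlx, hly]
      ring
    rw [T_mul_T cs hred]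
    exact lat_T hC _
  · right
    refine ⟨?_, r, hrt, hxr⟩
    have hXt : cs.IsRightDescent (x * cs.simple t) t := by
      rw [cs.isRightDescent_iff, cs.simple_mul_simple_cancel_right]; exact hlx.symm
    have hYs : cs.IsLeftDescent (cs.simple s * y) s := by
      rw [cs.isLeftDescent_iff, cs.simple_mul_simple_cancel_left]; exact hly.symm
    obtain ⟨hr1, hr2⟩ := t3_B3 cs hM hts hrt hrs hXt hxr hYs hyr
    refine common_lat hxr hyr ?_ ?_
    · rw [T_mul_T cs hr1]
      exact lat_mono (by norm_num) (lat_T hC _)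
    · have hnr : ¬ cs.IsRightDescent (x * cs.simple t * cs.simple r) r := by
        rw [cs.not_isRightDescent_iff, cs.simple_mul_simple_cancel_right]
        exact (cs.isRightDescent_iff.1 hxr).symm
      rw [T_mul_s cs hnr, T_mul_T cs hr2]
      exact lat_mono (by norm_num) (lat_T hC _)

/-- all `ℓ(u) ≥ 2`: `Lat 1`, and `Lat 0` if `ℓ(u) ≥ 3` -/
theorem t3_lat (hM : T3 M) (hC : IsKL cs C) {i j : B} (hij : i ≠ j) {x y u : W}
    (hx : Rmin cs i j x) (hy : Lmin cs i j y) (hu : u ∈ D cs i j) (h2 : 2 ≤ cs.length u) {k : ℤ}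
    (hk : 0 ≤ k) (hk2 : cs.length u = 2 → 1 ≤ k) :
    Lat cs C N k (T cs x * T cs u * T cs y) := by
  rcases Nat.lt_or_ge 2 (cs.length u) with h3 | h3
  · rw [t3_lat_long hM hC hij hx hy hu h3]
    exact lat_mono hk (lat_T hC _)
  · have h4 : cs.length u = 2 := by omega
    obtain ⟨t, s, hts, hc, rfl⟩ := len_two_D hij hu h4
    have hk1 := hk2 h4
    have hx' : Rmin cs t s x := by
      rcases hc with ⟨rfl, rfl⟩ | ⟨rfl, rfl⟩
      · exact hx
      · exact ⟨hx.2, hx.1⟩
    have hy' : Lmin cs t s y := by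
      rcases hc with ⟨rfl, rfl⟩ | ⟨rfl, rfl⟩
      · exact hy
      · exact ⟨hy.2, hy.1⟩
    rcases t3_lat_two (N := N) hM hC hts hx' hy' with h | ⟨h, -⟩
    · exact lat_mono hk h
    · exact lat_mono hk1 h

end Pool.Agent.PolyCell
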