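import Pool.Agent.PolyTri.T3B3
import Pool.Agent.PolyCell.Bnd

/-!
# The degree bounds for `T3`
-/

open CoxeterSystem

namespace Pool.Agent.PolyCell

variable {B W : Type*} [Group W] {M : CoxeterMatrix B} {cs : CoxeterSystem M W}
  {C : W → Hk cs} {N : ℕ}

theorem t3_dhyp (hM : T3 M) (hC : IsKL cs C) (hN : 3 ≤ N) (n : ℕ) : DHyp cs C N n where
  small i j x y u hij hm hmN hx hy _ _ hu h2 _ := by
    have h3 := len_D_le cs hij hm hu
    exact t3_lat hM hC hij hx hy hu h2 (by omega) (fun h => by omega)
  small' i j x y u hij hm hmN hx hy _ _ hu h2 _ := by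
    have h3 := len_D_le cs hij hm hu
    have h4 := hM.ge i j hij
    exact t3_lat hM hC hij hx hy hu h2 (by omega) (fun h => by omega)
  big i j x y u hij hm hmN hx hy _ _ hu _ h2 _ :=
    t3_lat hM hC hij hx hy hu h2 (by omega) (fun h => by omega)

theorem t3_all (hM : T3 M) (hC : IsKL cs C) (hI : IdealN cs C N) (hN : 3 ≤ N) (n : ℕ) :
    A0S cs C N n ∧ A1S cs C N n ∧ A0pS cs C N n ∧ A1pS cs C N n :=
  estep_all (hdich_of_fin hM.fin) hC hI (by omega) (fun n _ _ _ _ => t3_dhyp hM hC hN (n + 1)) n

theorem t3_bnd (hM : T3 M) (hC : IsKL cs C) (hI : IdealN cs C N) (hN : 3 ≤ N) :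
    Bnd cs C N where
  a x y := (t3_all hM hC hI hN _).1 x y le_rfl
  a' x y h := (t3_all hM hC hI hN _).2.2.1 x y le_rfl h
  d i j x y u hij hm hmN hx hy hu := by
    have h3 := len_D_le cs hij hm hu
    have h4 : cs.length u = 0 ∨ cs.length u = 1 ∨ 2 ≤ cs.length u := by omega
    rcases h4 with h4 | h4 | h4
    · have hu1 : u = 1 := cs.length_eq_zero_iff.1 h4
      rw [hu1, cs.length_one, ← one_def' cs, mul_one]
      simpa using (t3_all hM hC hI hN _).1 x y le_rfl
    · obtain ⟨g, hg, rfl⟩ := len_one_D hij hu h4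
      rw [cs.length_simple]
      refine (t3_all hM hC hI hN _).2.1 x y g le_rfl ?_ ?_
      · rcases hg with rfl | rfl
        · exact hx.1
        · exact hx.2
      · rcases hg with rfl | rfl
        · exact hy.1
        · exact hy.2
    · exact t3_lat hM hC hij hx hy hu h4 (by omega) (fun h => by omega)
  d' i j x y u hx hy hyN hu huw := by
    have hij := hx.ne
    have hm : M i j ≠ 0 := hM.fin i j
    have hmN := hx.exp
    have h3 := len_D_le cs hij hm hu
    have h3' : cs.length u < M i j :=
      lt_of_le_of_ne h3 fun e => huw (eq_wT_of_len cs hij hm hu e)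
    have hxN : Le cs (N - 1) x := le_prefix cs (y := cs.simple i)
      (by unfold Red; rw [cs.length_simple]; exact (cs.not_isRightDescent_iff).1 hx.rmin.1) hx.fi
    have h4 : cs.length u = 0 ∨ cs.length u = 1 ∨ cs.length u = 2 ∨ 3 ≤ cs.length u := by omega
    rcases h4 with h4 | h4 | h4 | h4
    · have hu1 : u = 1 := cs.length_eq_zero_iff.1 h4
      rw [hu1, cs.length_one, ← one_def' cs, mul_one]
      simpa using (t3_all hM hC hI hN _).2.2.1 x y le_rfl hxN
    · obtain ⟨g, hg, rfl⟩ := len_one_D hij hu h4
      rw [cs.length_simple]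
      have h5 : Lat cs C N ((N : ℤ) - 2) (T cs x * T cs (cs.simple g) * T cs y) := by
        refine (t3_all hM hC hI hN _).2.2.2 x y g le_rfl ?_ ?_ ?_
        · rcases hg with rfl | rfl
          · exact hx.rmin.1
          · exact hx.rmin.2
        · rcases hg with rfl | rfl
          · exact hy.1
          · exact hy.2
        · rcases hg with rfl | rfl
          · exact hx.fi
          · exact hx.fj
      exact lat_mono (by push_cast; omega) h5
    · -- `ℓ(u) = 2`
      obtain ⟨t, s, hts, hc, rfl⟩ := len_two_D hij hu h4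
      have hx' : Rmin cs t s x := by
        rcases hc with ⟨rfl, rfl⟩ | ⟨rfl, rfl⟩
        · exact hx.rmin
        · exact ⟨hx.rmin.2, hx.rmin.1⟩
      have hy' : Lmin cs t s y := by
        rcases hc with ⟨rfl, rfl⟩ | ⟨rfl, rfl⟩
        · exact hy
        · exact ⟨hy.2, hy.1⟩
      rw [h4]
      rcases t3_lat_two (N := N) hM hC hts hx' hy' with h | ⟨h, r, hrt, hxr⟩
      · exact lat_mono (by push_cast; omega) h
      · by_cases hN4 : 4 ≤ N
        · exact lat_mono (by push_cast; omega) h
        · exfalso
          have hxt : cs.IsRightDescent (x * cs.simple t) t := by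
            rw [cs.isRightDescent_iff, cs.simple_mul_simple_cancel_right]
            exact ((cs.not_isRightDescent_iff).1 hx'.1).symm
          have hle : Le cs (N - 1) (x * cs.simple t) := by
            rcases hc with ⟨rfl, rfl⟩ | ⟨rfl, rfl⟩
            · exact hx.fi
            · exact hx.fj
          have h5 := hM.ge t r hrt.symm
          exact hle (fac_of_both cs hrt.symm (by omega) hxt hxr)
    · have h5 := t3_lat (N := N) hM hC hij hx.rmin hy hu (by omega) (k := 0) le_rfl
        (fun h => by omega)
      exact lat_mono (by omega) h5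

end Pool.Agent.PolyCell
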