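import Pool.Agent.PolyTri.T3

/-!
# The dichotomy, strong form

`AConcl x s y`: there is `h ≠ s`, `h ∈ R(x) ∩ L(y)`, and with `T = {s,h}`, `x = x₀ a`, `y = b y₀`: `ℓ(a) + 1 + ℓ(b) > m_T`.
`t3_dich`: `x s > x`, `s y > y`: `x s y` is reduced or `AConcl x s y`.
-/

open CoxeterSystem

namespace Pool.Agent.PolyCell

variable {B W : Type*} [Group W] {M : CoxeterMatrix B} (cs : CoxeterSystem M W)

def AConcl (cs : CoxeterSystem M W) (x : W) (s : B) (y : W) : Prop :=
  ∃ h, h ≠ s ∧ cs.IsRightDescent x h ∧ cs.IsLeftDescent y h ∧ ∃ x0 a b y0,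
    Rmin cs s h x0 ∧ a ∈ D cs s h ∧ x = x0 * a ∧ b ∈ D cs s h ∧ Lmin cs s h y0 ∧ y = b * y0 ∧
    M s h < cs.length a + 1 + cs.length b

/-- the `T`-part grows -/
theorem aconcl_mono {x : W} {s : B} {y z : W} (h : AConcl cs x s y) (hr : Red cs y z) :
    AConcl cs x s (y * z) := by
  obtain ⟨h, hhs, hx, hy, x0, a, b, y0, hx0, ha, hxa, hb, hy0, hyb, hl⟩ := h
  refine ⟨h, hhs, hx, ld_mul_of_red cs hr hy, x0, a, ?_⟩
  obtain ⟨c, y2, hy2, hc, hc2⟩ := decompL cs hhs.symm (y0 * z)
  refine ⟨b * c, y2, hx0, ha, hxa, Subgroup.mul_mem _ hb hc, hy2, ?_, ?_⟩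
  · rw [hyb, mul_assoc, hc2, mul_assoc]
  · have h1 : cs.length (y * z) = cs.length y + cs.length z := hr
    have h2 : cs.length y = cs.length b + cs.length y0 := by
      rw [hyb]; exact len_D_mul cs hhs.symm hy0 hb
    have h3 : cs.length (y0 * z) = cs.length c + cs.length y2 := by
      rw [hc2]; exact len_D_mul cs hhs.symm hy2 hc
    have h4 : cs.length (y * z) = cs.length (b * c) + cs.length y2 := by
      have e : y * z = b * c * y2 := by rw [hyb, mul_assoc, hc2, mul_assoc]
      rw [e]
      exact len_D_mul cs hhs.symm hy2 (Subgroup.mul_mem _ hb hc)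
    have h5 := cs.length_mul_le y0 z
    have h6 := cs.length_mul_le b (y0 * z)
    have e : y * z = b * (y0 * z) := by rw [hyb, mul_assoc]
    rw [← e] at h6
    omega

/-- prefixes -/
theorem nld_prefix {a b : W} {g : B} (h : cs.length (a * b) = cs.length a + cs.length b)
    (hg : ¬ cs.IsLeftDescent (a * b) g) : ¬ cs.IsLeftDescent a g :=
  fun ha => hg (ld_mul_of_red cs h ha)

/-- (A) -/
theorem t3_dich (hM : T3 M) {x y : W} {s : B} (hx : ¬ cs.IsRightDescent x s)
    (hy : ¬ cs.IsLeftDescent y s) :
    cs.length (x * cs.simple s * y) = cs.length x + 1 + cs.length y ∨ AConcl cs x s y := by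
  induction hn : cs.length y using Nat.strong_induction_on generalizing y with
  | _ n ih =>
  subst hn
  have IH : ∀ z, cs.length z < cs.length y → ¬ cs.IsLeftDescent z s →
      cs.length (x * cs.simple s * z) = cs.length x + 1 + cs.length z ∨ AConcl cs x s z :=
    fun z hz hzs => ih _ hz hzs rfl
  clear ih
  have hlx : cs.length (x * cs.simple s) = cs.length x + 1 := (cs.not_isRightDescent_iff).1 hx
  by_cases hy1 : y = 1
  · left
    rw [hy1, mul_one, hlx, cs.length_one]
  obtain ⟨p, hp⟩ := cs.exists_rightDescent_of_ne_one hy1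
  have hlp := cs.isRightDescent_iff.1 hp
  set y' := y * cs.simple p with hy'
  have hyy : y' * cs.simple p = y := by rw [hy', cs.simple_mul_simple_cancel_right]
  have hpy' : ¬ cs.IsRightDescent y' p := by
    rw [cs.not_isRightDescent_iff, hyy]; omega
  have hry : Red cs y' (cs.simple p) := by
    unfold Red; rw [hyy, cs.length_simple]; omega
  have hsy' : ¬ cs.IsLeftDescent y' s := nld_prefix cs hry (by rw [hyy]; exact hy)
  rcases IH y' (by omega) hsy' with hred | hA
  swap
  · right
    have := aconcl_mono cs hA hry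
    rwa [hyy] at this
  by_cases hpd : cs.IsRightDescent (x * cs.simple s * y') p
  swap
  · left
    have h1 := (cs.not_isRightDescent_iff).1 hpd
    rw [mul_assoc, hyy] at h1
    omega
  right
  have hlsy : cs.length (cs.simple s * y) = cs.length y + 1 := (cs.not_isLeftDescent_iff).1 hy
  by_cases hy'1 : y' = 1
  · -- `y = s_p`
    rw [hy'1, mul_one] at hpd
    have hyp : y = cs.simple p := by rw [← hyy, hy'1, one_mul]
    have hps : p ≠ s := by
      rintro rfl
      apply hy
      rw [hyp]
      unfold CoxeterSystem.IsLeftDescent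
      rw [cs.simple_mul_simple_self, cs.length_one, cs.length_simple]
      exact Nat.zero_lt_one
    have hss : cs.IsRightDescent (x * cs.simple s) s := by
      rw [cs.isRightDescent_iff, cs.simple_mul_simple_cancel_right]; exact hlx.symm
    have hxp : cs.IsRightDescent x p := by
      have := rd_of_both cs hps hpd hss
      rwa [cs.simple_mul_simple_cancel_right] at this
    obtain ⟨hm, z, hz, hz2, hz3⟩ := both_rd cs hps.symm hss hpd
    refine ⟨p, hps, hxp, ?_, z, wT cs s p * cs.simple s, cs.simple p, 1, hz, ?_, ?_, ?_, ?_, ?_, ?_⟩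
    · rw [hyp]
      unfold CoxeterSystem.IsLeftDescent
      rw [cs.simple_mul_simple_self, cs.length_one, cs.length_simple]
      exact Nat.zero_lt_one
    · exact Subgroup.mul_mem _ (wT_mem cs s p) (Subgroup.subset_closure (by simp))
    · rw [← mul_assoc, ← hz2, cs.simple_mul_simple_cancel_right]
    · exact Subgroup.subset_closure (by simp)
    · exact ⟨cs.not_isLeftDescent_one s, cs.not_isLeftDescent_one p⟩
    · rw [hyp, mul_one]
    · have h1 := cs.isRightDescent_iff.1 (rd_wT cs hps.symm hm (Or.inl rfl))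
      rw [length_wT cs hps.symm] at h1
      rw [cs.length_simple]
      omega
  -- `y' ≠ 1`
  obtain ⟨t, ht⟩ := cs.exists_rightDescent_of_ne_one hy'1
  have htp : t ≠ p := by
    rintro rfl
    exact hpy' ht
  have hredxsy' : Red cs (x * cs.simple s) y' := by
    unfold Red; rw [hlx]; exact hred
  have htd : cs.IsRightDescent (x * cs.simple s * y') t := rd_mul_of_red cs hredxsy' ht
  obtain ⟨hm, z0, hz0, hz, hzl⟩ := both_rd cs htp htd hpd
  obtain ⟨v0, c, hv0, hc, hvc⟩ := decompR cs htp y'
  have hlvc : cs.length y' = cs.length v0 + cs.length c := by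
    rw [hvc]; exact len_mul_D cs htp hv0 hc
  have htc : cs.IsRightDescent c t := by
    rw [hvc] at ht
    exact (rd_mul_D cs htp (Or.inl rfl) hv0 hc).1 ht
  have hpc : ¬ cs.IsRightDescent c p := by
    intro h
    apply hpy'
    rw [hvc]
    exact (rd_mul_D cs htp (Or.inr rfl) hv0 hc).2 h
  have hcw : c ≠ wT cs t p := by
    intro e
    exact hpc (by rw [e]; exact rd_wT cs htp hm (Or.inr rfl))
  have hlc : cs.length c < M t p :=
    lt_of_le_of_ne (len_D_le cs htp hm hc) fun e => hcw (eq_wT_of_len cs htp hm hc e)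
  have hc1 : 1 ≤ cs.length c := by
    have := cs.isRightDescent_iff.1 htc
    omega
  -- `g = w_T c⁻¹`
  have hinvc : c⁻¹ ∈ D cs t p := Subgroup.inv_mem _ hc
  obtain ⟨g, hg⟩ : ∃ g, g = wT cs t p * c⁻¹ := ⟨_, rfl⟩
  have hgD : g ∈ D cs t p := by rw [hg]; exact Subgroup.mul_mem _ (wT_mem cs t p) hinvc
  have hgc : g * c = wT cs t p := by rw [hg]; group
  have hlg : cs.length g + cs.length c = M t p := by
    have := (len_compl cs htp hm hinvc).2
    rw [cs.length_inv] at this
    rw [hg]
    exact this
  have hxsv0 : x * cs.simple s * v0 = z0 * g := by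
    have e : x * cs.simple s * v0 * c = z0 * g * c := by
      rw [mul_assoc, ← hvc, hz, mul_assoc, hgc]
    exact mul_right_cancel e
  have hg1 : g ≠ 1 := by
    intro e
    rw [e, cs.length_one] at hlg
    omega
  -- `s v0` and `x s v0`
  have hred_v0 : cs.length (x * cs.simple s * v0) = cs.length x + 1 + cs.length v0 := by
    have h1 := cs.length_mul_le (x * cs.simple s * v0) c
    have h2 := cs.length_mul_le (x * cs.simple s) v0
    have e : x * cs.simple s * v0 * c = x * cs.simple s * y' := by rw [mul_assoc, ← hvc]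
    rw [e] at h1
    omega
  have hsv0 : ¬ cs.IsLeftDescent v0 s := nld_prefix cs (b := c) (by rw [← hvc]; exact hlvc)
    (by rw [← hvc]; exact hsy')
  have hlsv0 : cs.length (cs.simple s * v0) = cs.length v0 + 1 := (cs.not_isLeftDescent_iff).1 hsv0
  have hredsv0 : Red cs x (cs.simple s * v0) := by
    unfold Red; rw [← mul_assoc, hred_v0, hlsv0]; ring
  have hsv1 : cs.simple s * v0 ≠ 1 := by
    intro e
    rw [e, cs.length_one] at hlsv0
    omega
  -- `c = c0 ...`, `g = ... c1`
  have hcne : c ≠ 1 := by
    intro e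
    rw [e, cs.length_one] at hc1
    omega
  obtain ⟨c0, hc0⟩ := cs.exists_leftDescent_of_ne_one hcne
  obtain ⟨c1, hc1d⟩ := cs.exists_rightDescent_of_ne_one hg1
  have hc0m := ld_of_mem_D cs htp hc hc0
  have hc1m := rd_of_mem_D cs htp hgD hc1d
  have hgc0 : ¬ cs.IsRightDescent g c0 := by
    intro h
    have h1 := cs.isRightDescent_iff.1 h
    have h2 := cs.isLeftDescent_iff.1 hc0
    have h3 := cs.length_mul_le (g * cs.simple c0) (cs.simple c0 * c)
    have e : g * cs.simple c0 * (cs.simple c0 * c) = wT cs t p := by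
      rw [mul_assoc, cs.simple_mul_simple_cancel_left, hgc]
    rw [e, length_wT cs htp] at h3
    omega
  have hc01 : c0 ≠ c1 := by
    rintro rfl
    exact hgc0 hc1d
  have hall : ∀ l, l ≠ c0 → l ≠ c1 → l ≠ t ∧ l ≠ p := by
    intro l h0 h1
    rcases hc0m with rfl | rfl <;> rcases hc1m with rfl | rfl
    · exact absurd rfl hc01
    · exact ⟨h0, h1⟩
    · exact ⟨h1, h0⟩
    · exact absurd rfl hc01
  -- `K` for `z0 g`
  have hK : ∀ l, l ≠ t → l ≠ p → cs.IsRightDescent (x * cs.simple s * v0) l → cs.length g = 1 := by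
    intro l h1 h2 h3
    rw [hxsv0] at h3
    by_contra hcon
    have hgl : 1 ≤ cs.length g := by
      have := cs.isRightDescent_iff.1 hc1d
      omega
    rcases t3_rd_long cs hM htp hz0 hgD (by omega) h3 with e | e
    · exact h1 e
    · exact h2 e
  have hg_of : cs.length g = 1 → g = cs.simple c1 := by
    intro h
    have h1 := cs.isRightDescent_iff.1 hc1d
    have h2 : g * cs.simple c1 = 1 := cs.length_eq_zero_iff.1 (by omega)
    have h3 := congrArg (· * cs.simple c1) h2
    simpa using h3
  -- `c1 ∉ R(v0)`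
  have hc1v0 : ¬ cs.IsRightDescent v0 c1 := by
    rcases hc1m with rfl | rfl
    · exact hv0.1
    · exact hv0.2
  obtain ⟨r, hr⟩ := cs.exists_rightDescent_of_ne_one hsv1
  have hrx : cs.IsRightDescent (x * cs.simple s * v0) r := by
    have := rd_mul_of_red cs hredsv0 hr
    rwa [← mul_assoc] at this
  have hrc0 : r ≠ c0 := by
    rintro rfl
    rw [hxsv0] at hrx
    exact hgc0 ((rd_mul_D cs htp hc0m hz0 hgD).1 hrx)
  by_cases hrc1 : r = c1
  · subst hrc1
    have hv01 : v0 = 1 := by
      by_contra hv01
      obtain ⟨e, he⟩ := cs.exists_rightDescent_of_ne_one hv01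
      have het : e ≠ t := by rintro rfl; exact hv0.1 he
      have hep : e ≠ p := by rintro rfl; exact hv0.2 he
      have hred2 : Red cs (x * cs.simple s) v0 := by unfold Red; rw [hred_v0, hlx]
      have h1 := hK e het hep (rd_mul_of_red cs hred2 he)
      have h2 := hg_of h1
      have h3 := lift_eq cs hsv0 hc1v0 hr
      -- `s y' = v0 w_T`
      have h4 : cs.simple s * y' = v0 * wT cs t p := by
        rw [hvc, ← mul_assoc, h3, mul_assoc, ← h2, hgc]
      have h5 : cs.IsRightDescent (cs.simple s * y') p := by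
        rw [h4]
        exact (rd_mul_D cs htp (Or.inr rfl) hv0 (wT_mem cs t p)).2 (rd_wT cs htp hm (Or.inr rfl))
      have h6 := cs.isRightDescent_iff.1 h5
      rw [mul_assoc, hyy] at h6
      have h7 := cs.length_mul_le (cs.simple s) y'
      rw [cs.length_simple] at h7
      omega
    subst hv01
    rw [mul_one] at hr hxsv0
    have hrs : r = s := rd_simple cs hr
    subst hrs
    rw [one_mul] at hvc
    -- `y = c p`, `x = z0 (g r)`
    have hrc : r ≠ c0 := hrc0
    have hrD : cs.simple r ∈ D cs t p := by
      rcases hc1m with rfl | rfl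
      · exact Subgroup.subset_closure (by simp)
      · exact Subgroup.subset_closure (by simp)
    have hpD : cs.simple p ∈ D cs t p := Subgroup.subset_closure (by simp)
    have hDe : D cs r c0 = D cs t p := by
      unfold D
      rcases hc0m with rfl | rfl <;> rcases hc1m with rfl | rfl
      · exact absurd rfl hc01
      · rw [Set.pair_comm]
      · rfl
      · exact absurd rfl hc01
    have hMe : M r c0 = M t p := by
      rcases hc0m with rfl | rfl <;> rcases hc1m with rfl | rfl
      · exact absurd rfl hc01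
      · rw [M.symmetric]
      · rfl
      · exact absurd rfl hc01
    have hlgr := cs.isRightDescent_iff.1 hc1d
    have hxz : x = z0 * (g * cs.simple r) := by
      rw [← mul_assoc, ← hxsv0, cs.simple_mul_simple_cancel_right]
    have hycp : y = c * cs.simple p := by rw [← hyy, hvc]
    have hyD : y ∈ D cs t p := by rw [hycp]; exact Subgroup.mul_mem _ hc hpD
    have hyle := len_D_le cs htp hm hyD
    have hyw : y ≠ wT cs t p := by
      intro e
      apply hy
      rw [e]
      exact ld_wT cs htp hm hc1m
    have hylt : cs.length y < M t p :=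
      lt_of_le_of_ne hyle fun e => hyw (eq_wT_of_len cs htp hm hyD e)
    have hlc' : cs.length c = cs.length y' := by rw [hvc]
    have hgrD : g * cs.simple r ∈ D cs t p := Subgroup.mul_mem _ hgD hrD
    have hgr1 : g * cs.simple r ≠ 1 := by
      intro e
      rw [e, cs.length_one] at hlgr
      omega
    have hmem : ∀ l, l = t ∨ l = p → l ≠ r → l = c0 := by
      intro l hl hlr
      by_contra hlc0
      have := hall l hlc0 hlr
      rcases hl with rfl | rfl
      · exact this.1 rfl
      · exact this.2 rfl
    have hxc0 : cs.IsRightDescent x c0 := by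
      obtain ⟨l, hl⟩ := cs.exists_rightDescent_of_ne_one hgr1
      have hlm := rd_of_mem_D cs htp hgrD hl
      have hxl : cs.IsRightDescent x l := by
        rw [hxz]
        exact (rd_mul_D cs htp hlm hz0 hgrD).2 hl
      have hlr : l ≠ r := by
        rintro rfl
        exact hx hxl
      rw [← hmem l hlm hlr]
      exact hxl
    have hyc0 : cs.IsLeftDescent y c0 := by
      obtain ⟨l, hl⟩ := cs.exists_leftDescent_of_ne_one hy1
      have hlm := ld_of_mem_D cs htp hyD hl
      have hlr : l ≠ r := by
        rintro rfl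
        exact hy hl
      rw [← hmem l hlm hlr]
      exact hl
    refine ⟨c0, hrc.symm, hxc0, hyc0, z0, g * cs.simple r, y, 1, ?_, by rw [hDe]; exact hgrD, hxz,
      by rw [hDe]; exact hyD, ⟨cs.not_isLeftDescent_one r, cs.not_isLeftDescent_one c0⟩,
      by rw [mul_one], ?_⟩
    · constructor
      · rcases hc1m with rfl | rfl
        · exact hz0.1
        · exact hz0.2
      · rcases hc0m with rfl | rfl
        · exact hz0.1
        · exact hz0.2
    · rw [hMe]
      omega
  · -- `r ∉ {t,p}`
    obtain ⟨hrt, hrp⟩ := hall r hrc0 hrc1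
    have h1 := hK r hrt hrp hrx
    have h2 := hg_of h1
    have hcpD : c * cs.simple p ∈ D cs t p :=
      Subgroup.mul_mem _ hc (Subgroup.subset_closure (by simp))
    have hlcp : cs.length (c * cs.simple p) = cs.length c + 1 := (cs.not_isRightDescent_iff).1 hpc
    have hcp : c * cs.simple p = wT cs t p := eq_wT_of_len cs htp hm hcpD (by omega)
    have hyv : y = v0 * wT cs t p := by rw [← hyy, hvc, mul_assoc, hcp]
    have hc1D : cs.simple c1 ∈ D cs t p := by
      rcases hc1m with rfl | rfl
      · exact Subgroup.subset_closure (by simp)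
      · exact Subgroup.subset_closure (by simp)
    have hc1w := cs.isLeftDescent_iff.1 (ld_wT cs htp hm hc1m)
    rw [length_wT cs htp] at hc1w
    have h2m := two_le_exp htp hm
    have hl1 : cs.length (v0 * cs.simple c1) = cs.length v0 + 1 := (cs.not_isRightDescent_iff).1 hc1v0
    have hye : v0 * cs.simple c1 * (cs.simple c1 * wT cs t p) = y := by
      rw [mul_assoc, cs.simple_mul_simple_cancel_left, hyv]
    have hly : cs.length y = cs.length v0 + M t p := by
      rw [hyv, len_mul_D cs htp hv0 (wT_mem cs t p), length_wT cs htp]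
    have hredy : Red cs (v0 * cs.simple c1) (cs.simple c1 * wT cs t p) := by
      unfold Red
      rw [hye]
      omega
    have hs' : ¬ cs.IsLeftDescent (v0 * cs.simple c1) s :=
      nld_prefix cs hredy (by rw [hye]; exact hy)
    rcases IH (v0 * cs.simple c1) (by omega) hs' with h | h
    · exfalso
      have h3 : cs.IsRightDescent (x * cs.simple s * v0) c1 := by
        rw [hxsv0]
        exact (rd_mul_D cs htp hc1m hz0 hgD).2 hc1d
      have h4 := cs.isRightDescent_iff.1 h3
      rw [mul_assoc] at h4
      omega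
    · have := aconcl_mono cs h hredy
      rwa [hye] at this

end Pool.Agent.PolyCell
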