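import Pool.Agent.PolyTri.T3B3
import Pool.Agent.PolyCell.Geo

/-!
# The geometric facts for `T3`
-/

open CoxeterSystem

namespace Pool.Agent.PolyCell

variable {B W : Type*} [Group W] {M : CoxeterMatrix B} (cs : CoxeterSystem M W)

/-- C3 for `T3` -/
theorem t3_le_mul_dih (hM : T3 M) {N : ℕ} {i j c : B} (hij : i ≠ j) {X u : W}
    (hX : Rmin cs i j X) (hu : u ∈ D cs i j) (hlt : cs.length u < M i j)
    (hc : cs.IsLeftDescent u c) (hle : Le cs N (X * cs.simple c)) : Le cs N (X * u) := by
  have hm := hM.fin i j
  induction hn : cs.length u using Nat.strong_induction_on generalizing u with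
  | _ n ih =>
    subst hn
    have hcij := ld_of_mem_D cs hij hu hc
    have hc1 : cs.length (cs.simple c * u) + 1 = cs.length u := (cs.isLeftDescent_iff).1 hc
    rcases Nat.lt_or_ge (cs.length u) 2 with h2 | h2
    · have h0 : cs.length (cs.simple c * u) = 0 := by omega
      have h1 := (cs.length_eq_zero_iff).1 h0
      have h3 : u = cs.simple c := by
        have h4 : cs.simple c * (cs.simple c * u) = cs.simple c := by rw [h1, mul_one]
        rwa [cs.simple_mul_simple_cancel_left] at h4
      rw [h3]
      exact hle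
    · have hno : ∀ k l, k ≠ l → (k = i ∨ k = j) → (l = i ∨ l = j) →
          (cs.IsRightDescent u k ∧ cs.IsRightDescent u l ∨
            cs.IsLeftDescent u k ∧ cs.IsLeftDescent u l) → False := by
        rintro k l hkl hk hl hd
        have hw : u = wT cs i j := by
          rcases hk with rfl | rfl <;> rcases hl with rfl | rfl
          · exact absurd rfl hkl
          · rcases hd with hd | hd
            · exact eq_wT_of_rd cs hij hm hu hd.1 hd.2
            · exact eq_wT_of_ld cs hij hm hu hd.1 hd.2
          · rcases hd with hd | hd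
            · exact eq_wT_of_rd cs hij hm hu hd.2 hd.1
            · exact eq_wT_of_ld cs hij hm hu hd.2 hd.1
          · exact absurd rfl hkl
        rw [hw, length_wT cs hij] at hlt
        exact lt_irrefl _ hlt
      intro hFac
      rcases fac_step cs hFac with ⟨i', j', hij', hNm, hi', hj'⟩ | ⟨e, he, hF⟩
      · have hi2 := t3_rd_long cs hM hij hX hu h2 hi'
        have hj2 := t3_rd_long cs hM hij hX hu h2 hj'
        exact hno i' j' hij' hi2 hj2 (Or.inl ⟨(rd_mul_D cs hij hi2 hX hu).1 hi',
          (rd_mul_D cs hij hj2 hX hu).1 hj'⟩)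
      · have he2 := t3_rd_long cs hM hij hX hu h2 he
        have heu := (rd_mul_D cs hij he2 hX hu).1 he
        have he1 : cs.length (u * cs.simple e) + 1 = cs.length u := (cs.isRightDescent_iff).1 heu
        have hu' : u * cs.simple e ∈ D cs i j :=
          (D cs i j).mul_mem hu (simple_mem_D' cs he2)
        have hne : u * cs.simple e ≠ 1 := by
          intro h
          rw [h, cs.length_one] at he1
          omega
        obtain ⟨c', hc'⟩ := cs.exists_leftDescent_of_ne_one hne
        have hc'1 : cs.length (cs.simple c' * (u * cs.simple e)) + 1 =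
            cs.length (u * cs.simple e) := (cs.isLeftDescent_iff).1 hc'
        have hc'u : cs.IsLeftDescent u c' := by
          show cs.length (cs.simple c' * u) < cs.length u
          have h5 : cs.simple c' * u = cs.simple c' * (u * cs.simple e) * cs.simple e := by
            rw [← mul_assoc, cs.simple_mul_simple_cancel_right]
          have h6 := cs.length_mul_le (cs.simple c' * (u * cs.simple e)) (cs.simple e)
          rw [← h5, cs.length_simple] at h6
          omega
        have hcc : c' = c := by
          by_contra h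
          exact hno c' c h (ld_of_mem_D cs hij hu hc'u) hcij (Or.inr ⟨hc'u, hc⟩)
        subst hcc
        have h7 := ih (cs.length (u * cs.simple e)) (by omega) (u := u * cs.simple e) hu'
          (by omega) hc' rfl
        rw [← mul_assoc] at h7
        exact h7 hF

/-- `f w_T` reduced: `f` is rmin -/
theorem rmin_of_len {i j : B} (hij : i ≠ j) (hm : M i j ≠ 0) {f : W}
    (h : cs.length (f * wT cs i j) = cs.length f + M i j) : Rmin cs i j f := by
  have key : ∀ c, c = i ∨ c = j → ¬ cs.IsRightDescent f c := by
    intro c hc hd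
    have h1 := cs.isRightDescent_iff.1 hd
    have h2 := cs.isLeftDescent_iff.1 (ld_wT cs hij hm hc)
    rw [length_wT cs hij] at h2
    have h3 := cs.length_mul_le (f * cs.simple c) (cs.simple c * wT cs i j)
    have e : f * cs.simple c * (cs.simple c * wT cs i j) = f * wT cs i j := by
      rw [mul_assoc, cs.simple_mul_simple_cancel_left]
    rw [e] at h3
    omega
  exact ⟨key i (Or.inl rfl), key j (Or.inr rfl)⟩

/-- braid relation for `M i j = 3` -/
theorem braid3 {i j : B} (h : M i j = 3) :
    cs.simple i * cs.simple j * cs.simple i = cs.simple j * cs.simple i * cs.simple j := by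
  have h1 := cs.simple_mul_simple_pow i j
  rw [h] at h1
  have h2 : cs.simple i * cs.simple j * cs.simple i *
      (cs.simple j * cs.simple i * cs.simple j) = 1 := by
    rw [← h1]
    simp only [pow_succ, pow_zero, one_mul, mul_assoc]
  have h3 := eq_inv_of_mul_eq_one_left h2
  rw [h3]
  simp only [mul_inv_rev, cs.inv_simple, mul_assoc]

/-- the last part of G: `Le N (f s_{c'})` -/
private theorem t3_G_core (hM : T3 M) {N : ℕ} {F : W} {c c' e : B} (hcc : c ≠ c') (hce : c ≠ e)
    (hc'e : c' ≠ e) (hN : M c c' ≤ N) (hFc : cs.IsRightDescent F c) (hFe : cs.IsRightDescent F e)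
    (hF : Le cs N F) (hfc' : ¬ cs.IsRightDescent (F * cs.simple c) c') :
    Le cs N (F * cs.simple c * cs.simple c') := by
  obtain ⟨f, hf⟩ : ∃ f, f = F * cs.simple c := ⟨_, rfl⟩
  rw [← hf] at hfc' ⊢
  have hlF := cs.isRightDescent_iff.1 hFc
  rw [← hf] at hlF
  have hfN : Le cs N f := by
    refine le_prefix cs (y := cs.simple c) ?_ ?_
    · unfold Red
      rw [hf, cs.simple_mul_simple_cancel_right, cs.length_simple, ← hf]
      exact hlF.symm
    · rw [hf, cs.simple_mul_simple_cancel_right]
      exact hF
  have hfe : cs.IsRightDescent f e := by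
    rw [hf]
    exact rd_of_both cs hce.symm hFe hFc
  have hlf := cs.isRightDescent_iff.1 hfe
  have hlc' := (cs.not_isRightDescent_iff).1 hfc'
  have hc'c' : cs.IsRightDescent (f * cs.simple c') c' := by
    rw [cs.isRightDescent_iff, cs.simple_mul_simple_cancel_right]; exact hlc'.symm
  have hback : ∀ l, l ≠ c' → cs.IsRightDescent (f * cs.simple c') l → cs.IsRightDescent f l := by
    intro l hl h
    have := rd_of_both cs hl h hc'c'
    rwa [cs.simple_mul_simple_cancel_right] at this
  have hback' : ∀ l, l ≠ c' → cs.IsRightDescent (f * cs.simple c') l →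
      cs.IsRightDescent (f * cs.simple l) c' := by
    intro l hl h
    have := rd_of_both' cs hl (hM.ge l c' hl) h hc'c'
    rwa [cs.simple_mul_simple_cancel_right] at this
  have claim0 : ∀ l, cs.IsRightDescent (f * cs.simple c') l → l = c' ∨ l = e := by
    intro l hl
    by_contra hcon
    push Not at hcon
    exact t3_D cs hM hcon.2 hc'e.symm hcon.1 (hback l hcon.1 hl) hfe (hback' l hcon.1 hl)
  intro hfac
  have hstep : cs.IsRightDescent (f * cs.simple c') e ∧
      (N < M c' e ∨ Fac cs N (f * cs.simple c' * cs.simple e)) := by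
    rcases fac_step cs hfac with ⟨i', j', hij', hNm, hi', hj'⟩ | ⟨l, hl, hFl⟩
    · rcases claim0 i' hi' with rfl | rfl <;> rcases claim0 j' hj' with rfl | rfl
      · exact absurd rfl hij'
      · exact ⟨hj', Or.inl hNm⟩
      · exact ⟨hi', Or.inl (by rw [M.symmetric]; exact hNm)⟩
      · exact absurd rfl hij'
    · rcases claim0 l hl with rfl | rfl
      · rw [cs.simple_mul_simple_cancel_right] at hFl
        exact absurd hFl hfN
      · exact ⟨hl, Or.inr hFl⟩
  obtain ⟨hXe, hstep2⟩ := hstep
  -- `c, c' ∈ R(f s_e)`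
  have hec : cs.IsRightDescent (f * cs.simple e) c := by
    rw [hf]
    exact rd_of_both' cs hce.symm (hM.ge e c hce.symm) hFe hFc
  have hec' : cs.IsRightDescent (f * cs.simple e) c' := hback' e hc'e.symm hXe
  have hM1 : M e c' = 3 := by
    by_contra hcon
    have h4 := hM.ge e c' hc'e.symm
    have h5 := rd_K2 cs hM hc'e.symm (by omega) (k := c) hXe hc'c' (by
      rw [cs.simple_mul_simple_cancel_right]; exact hec)
    exact hcc h5
  have hM2 : M e c = 3 := by
    by_contra hcon
    have h4 := hM.ge e c hce.symm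
    have h5 := rd_K2 cs hM hce.symm (by omega) (k := c') hFe hFc (by
      rw [← hf]; exact hec')
    exact hcc h5.symm
  have hM3 : 4 ≤ M c c' := by
    have h4 := hM.ge c c' hcc
    by_contra hcon
    have h5 : M c c' = 3 := by omega
    exact hM.not3 e c' c hc'e.symm hcc.symm hce.symm hM1 (by rw [M.symmetric]; exact h5) hM2
  have hM1' : M c' e = 3 := by rw [M.symmetric]; exact hM1
  have hG : Fac cs N (f * cs.simple c' * cs.simple e) := by
    rcases hstep2 with h | h
    · omega
    · exact h
  -- step for `f c' e`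
  have hlXe := cs.isRightDescent_iff.1 hXe
  have hXec' : cs.IsRightDescent (f * cs.simple c' * cs.simple e) c' := rd_of_both cs hc'e hc'c' hXe
  have hG2 : Fac cs N (f * cs.simple c' * cs.simple e * cs.simple c') := by
    rcases fac_step cs hG with ⟨i', j', hij', hNm, hi', hj'⟩ | ⟨l, hl, hFl⟩
    · have h1 := rd_K1 cs hM hc'e hc'c' hXe hi'
      have h2 := rd_K1 cs hM hc'e hc'c' hXe hj'
      exact absurd (h1.trans h2.symm) hij'
    · have h1 := rd_K1 cs hM hc'e hc'c' hXe hl
      rw [h1] at hFl
      exact hFl
  -- `f c' e c' = z e`, `z = f e c'`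
  obtain ⟨z, hz⟩ : ∃ z, z = f * cs.simple e * cs.simple c' := ⟨_, rfl⟩
  have hze : f * cs.simple c' * cs.simple e * cs.simple c' = z * cs.simple e := by
    have h := braid3 cs hM1'
    calc f * cs.simple c' * cs.simple e * cs.simple c'
        = f * (cs.simple c' * cs.simple e * cs.simple c') := by simp only [mul_assoc]
      _ = f * (cs.simple e * cs.simple c' * cs.simple e) := by rw [h]
      _ = z * cs.simple e := by rw [hz]; simp only [mul_assoc]
  rw [hze] at hG2
  have hlec' := cs.isRightDescent_iff.1 hec'
  rw [← hz] at hlec'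
  have hlXec' := cs.isRightDescent_iff.1 hXec'
  rw [hze] at hlXec'
  have hlze : cs.length (z * cs.simple e) = cs.length z + 1 := by omega
  have hzee : cs.IsRightDescent (z * cs.simple e) e := by
    rw [cs.isRightDescent_iff, cs.simple_mul_simple_cancel_right]; exact hlze.symm
  have hzN : Le cs N z := by
    refine le_prefix cs (y := cs.simple c' * cs.simple e) ?_ ?_
    · have e1 : z * (cs.simple c' * cs.simple e) = f := by
        rw [hz, ← mul_assoc, cs.simple_mul_simple_cancel_right, cs.simple_mul_simple_cancel_right]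
      unfold Red
      rw [e1]
      have h1 := cs.length_mul_le (cs.simple c') (cs.simple e)
      have h2 := cs.length_mul_le z (cs.simple c' * cs.simple e)
      rw [e1] at h2
      rw [cs.length_simple, cs.length_simple] at h1
      omega
    · have e1 : z * (cs.simple c' * cs.simple e) = f := by
        rw [hz, ← mul_assoc, cs.simple_mul_simple_cancel_right, cs.simple_mul_simple_cancel_right]
      rw [e1]
      exact hfN
  have hRz : ∀ k, cs.IsRightDescent z k → k = c := by
    intro k hk
    rw [hz] at hk
    exact rd_K1 cs hM hcc hec hec' hk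
  have claim1 : ∀ l, cs.IsRightDescent (z * cs.simple e) l → l = e := by
    intro l hl
    by_contra hle
    have h1 : cs.IsRightDescent z l := by
      have := rd_of_both cs hle hl hzee
      rwa [cs.simple_mul_simple_cancel_right] at this
    obtain rfl := hRz l h1
    have h2 : cs.IsRightDescent (z * cs.simple l) e := by
      have := rd_of_both' cs hle (hM.ge l e hle) hl hzee
      rwa [cs.simple_mul_simple_cancel_right] at this
    rw [hz] at h2
    have h3 := rd_K2 cs hM hcc hM3 hec hec' h2
    exact hc'e h3.symm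
  rcases fac_step cs hG2 with ⟨i', j', hij', hNm, hi', hj'⟩ | ⟨l, hl, hFl⟩
  · exact hij' ((claim1 i' hi').trans (claim1 j' hj').symm)
  · rw [claim1 l hl, cs.simple_mul_simple_cancel_right] at hFl
    exact hzN hFl

/-- (G) -/
theorem t3_G (hM : T3 M) {N : ℕ} {i j : B} (hij : i ≠ j) {x y : W} (hx : Rmin cs i j x)
    (hxN : Le cs N (x * wT cs i j)) (hy : Lmin cs i j y) (hyN : Le cs N (wT cs i j * y)) :
    Le cs N (x * wT cs i j * y) := by
  induction hn : cs.length y using Nat.strong_induction_on generalizing y with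
  | _ n ih =>
  subst hn
  have hm := hM.fin i j
  have h3m := hM.ge i j hij
  have hwD := wT_mem cs i j
  have hlw := length_wT cs hij
  have hlE := t3_B1 cs hM hij hx hy hwD (by omega)
  have hlwy := len_D_mul cs hij hy hwD
  intro hF
  rcases fac_step cs hF with ⟨i', j', hij', hNm, hi', hj'⟩ | ⟨d, hd, hFd⟩
  · exact hyN (fac_of_both cs hij' hNm (t3_B4 cs hM hij hx hy hi') (t3_B4 cs hM hij hx hy hj'))
  have hdw := t3_B4 cs hM hij hx hy hd
  by_cases hdy : cs.IsRightDescent y d
  · have hl := cs.isRightDescent_iff.1 hdy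
    have hyd : y * cs.simple d * cs.simple d = y := cs.simple_mul_simple_cancel_right d
    have hred : Red cs (y * cs.simple d) (cs.simple d) := by
      unfold Red; rw [hyd, cs.length_simple]; exact hl.symm
    have hy' : Lmin cs i j (y * cs.simple d) :=
      ⟨nld_prefix cs hred (by rw [hyd]; exact hy.1), nld_prefix cs hred (by rw [hyd]; exact hy.2)⟩
    have hly' := len_D_mul cs hij hy' hwD
    have hle : Le cs N (wT cs i j * (y * cs.simple d)) := by
      have e : wT cs i j * (y * cs.simple d) * cs.simple d = wT cs i j * y := by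
        rw [mul_assoc, hyd]
      refine le_prefix cs (y := cs.simple d) ?_ (by rw [e]; exact hyN)
      unfold Red
      rw [e, cs.length_simple]
      omega
    refine ih _ (by omega) hy' hle rfl ?_
    rw [← mul_assoc]
    exact hFd
  by_cases hy1 : y = 1
  · subst hy1
    rw [mul_one] at hF
    exact hxN hF
  obtain ⟨r, hr⟩ := cs.exists_rightDescent_of_ne_one hy1
  have hdr : d ≠ r := by
    rintro rfl
    exact hdy hr
  have hredwy : Red cs (wT cs i j) y := hlwy
  have hrw : cs.IsRightDescent (wT cs i j * y) r := rd_mul_of_red cs hredwy hr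
  have hMdr : M d r ≤ N := by
    by_contra hcon
    push Not at hcon
    exact hyN (fac_of_both cs hdr hcon hdw hrw)
  obtain ⟨y0, b, hy0, hb, hyb⟩ := decompR cs hdr y
  have hlyb : cs.length y = cs.length y0 + cs.length b := by
    rw [hyb]; exact len_mul_D cs hdr hy0 hb
  have hrb : cs.IsRightDescent b r := by
    rw [hyb] at hr
    exact (rd_mul_D cs hdr (Or.inr rfl) hy0 hb).1 hr
  have hdb : ¬ cs.IsRightDescent b d := by
    intro h
    apply hdy
    rw [hyb]
    exact (rd_mul_D cs hdr (Or.inl rfl) hy0 hb).2 h
  have hb1 : 1 ≤ cs.length b := by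
    have := cs.isRightDescent_iff.1 hrb
    omega
  have hm2 := hM.fin d r
  have hbw : b ≠ wT cs d r := by
    intro e
    exact hdb (by rw [e]; exact rd_wT cs hdr hm2 (Or.inl rfl))
  have hblt : cs.length b < M d r :=
    lt_of_le_of_ne (len_D_le cs hdr hm2 hb) fun e => hbw (eq_wT_of_len cs hdr hm2 hb e)
  obtain ⟨-, z, hz, hwz, hlz⟩ := both_rd cs hdr hdw hrw
  have hinvb : b⁻¹ ∈ D cs d r := Subgroup.inv_mem _ hb
  obtain ⟨g, hg⟩ : ∃ g, g = wT cs d r * b⁻¹ := ⟨_, rfl⟩
  have hgD : g ∈ D cs d r := by rw [hg]; exact Subgroup.mul_mem _ (wT_mem cs d r) hinvb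
  have hgb : g * b = wT cs d r := by rw [hg]; group
  have hlg : cs.length g + cs.length b = M d r := by
    have := (len_compl cs hdr hm2 hinvb).2
    rw [cs.length_inv] at this
    rw [hg]
    exact this
  have hwy0 : wT cs i j * y0 = z * g := by
    have e : wT cs i j * y0 * b = z * g * b := by
      rw [mul_assoc, ← hyb, hwz, mul_assoc, hgb]
    exact mul_right_cancel e
  have hredy : Red cs y0 b := by unfold Red; rw [← hyb]; exact hlyb
  have hy0L : Lmin cs i j y0 :=
    ⟨nld_prefix cs hredy (by rw [← hyb]; exact hy.1), nld_prefix cs hredy (by rw [← hyb]; exact hy.2)⟩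
  have hlwy0 := len_D_mul cs hij hy0L hwD
  have hredwy0 : Red cs (wT cs i j) y0 := hlwy0
  obtain ⟨e, hed, her, he⟩ : ∃ e, e ≠ d ∧ e ≠ r ∧ cs.IsRightDescent (wT cs i j * y0) e := by
    by_cases hy01 : y0 = 1
    · subst hy01
      rw [one_mul] at hyb
      by_cases h1 : i ≠ d ∧ i ≠ r
      · exact ⟨i, h1.1, h1.2, by rw [mul_one]; exact rd_wT cs hij hm (Or.inl rfl)⟩
      by_cases h2 : j ≠ d ∧ j ≠ r
      · exact ⟨j, h2.1, h2.2, by rw [mul_one]; exact rd_wT cs hij hm (Or.inr rfl)⟩
      exfalso
      have h1' : i = d ∨ i = r := by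
        by_contra hc
        push Not at hc
        exact h1 hc
      have h2' : j = d ∨ j = r := by
        by_contra hc
        push Not at hc
        exact h2 hc
      obtain ⟨l, hl⟩ := cs.exists_leftDescent_of_ne_one hy1
      have hlm : l = d ∨ l = r := ld_of_mem_D cs hdr (by rw [hyb]; exact hb) hl
      have hl2 : l = i ∨ l = j := by
        rcases h1' with rfl | rfl <;> rcases h2' with rfl | rfl
        · exact absurd rfl hij
        · exact hlm
        · exact hlm.symm
        · exact absurd rfl hij
      rcases hl2 with rfl | rfl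
      · exact hy.1 hl
      · exact hy.2 hl
    · obtain ⟨e, he⟩ := cs.exists_rightDescent_of_ne_one hy01
      refine ⟨e, ?_, ?_, rd_mul_of_red cs hredwy0 he⟩
      · rintro rfl
        exact hy0.1 he
      · rintro rfl
        exact hy0.2 he
  have hg1 : cs.length g = 1 := by
    by_contra hcon
    rw [hwy0] at he
    rcases t3_rd_long cs hM hdr hz hgD (by omega) he with h | h
    · exact hed h
    · exact her h
  obtain ⟨c, hc, hgc⟩ := len_one_D hdr hgD hg1
  obtain ⟨c', hc', hcc, hDe, hMe⟩ : ∃ c', (c' = d ∨ c' = r) ∧ c ≠ c' ∧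
      (∀ l, l = d ∨ l = r → l = c ∨ l = c') ∧ M c c' = M d r := by
    rcases hc with rfl | rfl
    · exact ⟨r, Or.inr rfl, hdr, fun l hl => hl, rfl⟩
    · exact ⟨d, Or.inl rfl, hdr.symm, fun l hl => hl.symm, M.symmetric _ _⟩
  have hce : c ≠ e := by
    rintro rfl
    rcases hc with h | h
    · exact hed h
    · exact her h
  have hc'e : c' ≠ e := by
    rintro rfl
    rcases hc' with h | h
    · exact hed h
    · exact her h
  -- `F = x w_T y0`
  have hlF0 := t3_B1 cs hM hij hx hy0L hwD (by omega)
  have hwy0N : Le cs N (wT cs i j * y0) := by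
    have e1 : wT cs i j * y0 * b = wT cs i j * y := by rw [mul_assoc, ← hyb]
    refine le_prefix cs (y := b) ?_ (by rw [e1]; exact hyN)
    unfold Red
    rw [e1]
    omega
  have hFN : Le cs N (x * wT cs i j * y0) := ih _ (by omega) hy0L hwy0N rfl
  have hredx : Red cs x (wT cs i j * y0) := by
    unfold Red
    rw [← mul_assoc]
    omega
  have hFe : cs.IsRightDescent (x * wT cs i j * y0) e := by
    rw [mul_assoc]
    exact rd_mul_of_red cs hredx he
  have hFc : cs.IsRightDescent (x * wT cs i j * y0) c := by
    rw [mul_assoc]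
    refine rd_mul_of_red cs hredx ?_
    rw [hwy0]
    refine (rd_mul_D cs hdr hc hz hgD).2 ?_
    rw [hgc]
    exact rd_simple_self cs c
  obtain ⟨f, hf⟩ : ∃ f, f = x * wT cs i j * y0 * cs.simple c := ⟨_, rfl⟩
  have hlf := cs.isRightDescent_iff.1 hFc
  rw [← hf] at hlf
  have hbc : b = cs.simple c * wT cs d r := by
    rw [← hgb, hgc, cs.simple_mul_simple_cancel_left]
  have hEf : x * wT cs i j * y = f * wT cs d r := by
    rw [hf, hyb, hbc]
    simp only [mul_assoc]
  have hfmin : Rmin cs d r f := by
    refine rmin_of_len cs hdr hm2 ?_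
    rw [← hEf]
    omega
  have hfc' : ¬ cs.IsRightDescent f c' := by
    rcases hc' with rfl | rfl
    · exact hfmin.1
    · exact hfmin.2
  -- `v = w_{dr} s_d`
  have hvD : wT cs d r * cs.simple d ∈ D cs d r :=
    Subgroup.mul_mem _ (wT_mem cs d r) (simple_mem_D' cs (Or.inl rfl))
  have hlv := cs.isRightDescent_iff.1 (rd_wT cs hdr hm2 (Or.inl rfl))
  rw [length_wT cs hdr] at hlv
  have hv1 : wT cs d r * cs.simple d ≠ 1 := by
    intro h
    rw [h, cs.length_one] at hlv
    have := hM.ge d r hdr
    omega
  have hvc' : cs.IsLeftDescent (wT cs d r * cs.simple d) c' := by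
    obtain ⟨l, hl⟩ := cs.exists_leftDescent_of_ne_one hv1
    have hlm := ld_of_mem_D cs hdr hvD hl
    rcases hDe l hlm with rfl | rfl
    · exfalso
      apply hdb
      have h1 := cs.isLeftDescent_iff.1 hl
      rw [cs.isRightDescent_iff, hbc, mul_assoc]
      rw [hbc] at hblt hlyb hb1
      have h2 : cs.length (cs.simple l * wT cs d r) + 1 = M d r := by
        have := cs.isLeftDescent_iff.1 (ld_wT cs hdr hm2 hc)
        rw [length_wT cs hdr] at this
        exact this
      omega
    · exact hl
  have hEd : x * wT cs i j * y * cs.simple d = f * (wT cs d r * cs.simple d) := by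
    rw [hEf, mul_assoc]
  rw [hEd] at hFd
  refine t3_le_mul_dih cs hM hdr hfmin hvD (by omega) hvc' ?_ hFd
  rw [hf]
  rw [hf] at hfc'
  exact t3_G_core cs hM hcc hce hc'e (by rw [hMe]; exact hMdr) hFc hFe hFN hfc'

theorem t3_noThree (hM : T3 M) : NoThree cs := fun _ _ _ _ h1 h2 h3 => by
  rw [← cs.isRightDescent_inv_iff] at h1 h2 h3
  exact t3_no_three cs hM h1 h2 h3

theorem t3_geo (hM : T3 M) {N : ℕ} (hN : 2 ≤ N) : Geo cs N where
  a3 i j x u h hu huw := by
    by_cases hu1 : u = 1
    · rw [hu1, mul_one]
      exact le_prefix cs (y := cs.simple i)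
        (by unfold Red; rw [cs.length_simple]; exact (cs.not_isRightDescent_iff).1 h.rmin.1) h.fi
    · obtain ⟨c, hc⟩ := cs.exists_leftDescent_of_ne_one hu1
      have hcm := ld_of_mem_D cs h.ne hu hc
      have hlt : cs.length u < M i j :=
        lt_of_le_of_ne (len_D_le cs h.ne (hM.fin i j) hu)
          fun e => huw (eq_wT_of_len cs h.ne (hM.fin i j) hu e)
      refine t3_le_mul_dih cs hM h.ne h.rmin hu hlt hc ?_
      rcases hcm with rfl | rfl
      · exact h.fi
      · exact h.fj
  vset i j x y hij hm hx hxN hy hyN := by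
    refine ⟨?_, t3_G cs hM hij hx hxN hy hyN⟩
    have h3 := hM.ge i j hij
    have hl := length_wT cs hij
    have := t3_B1 cs hM hij hx hy (wT_mem cs i j) (by omega)
    omega

end Pool.Agent.PolyCell
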