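import Pool.Agent.PolyTri.T3Bnd
import Pool.Agent.PolyTri.T3Geo

/-!
# The conjecture for all labels finite, `≥ 3`, not all equal to `3` on a triangle
-/

open CoxeterSystem

namespace Pool.Agent.PolyCell

variable {B W : Type*} [Group W] {M : CoxeterMatrix B} {cs : CoxeterSystem M W}

theorem cellConj_T3 (hM : T3 M) {N0 : ℕ} (hN0 : ∀ i j : B, M i j ≤ N0) : CellConj cs :=
  cellConj_of_bnd hN0 (t3_noThree cs hM) (fun _ hN _ => t3_geo cs hM hN)
    fun _ hC N _ hex hI => t3_bnd hM hC hI (by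
      obtain ⟨i, j, hij, h⟩ := hex
      rw [← h]
      exact hM.ge i j hij)

end Pool.Agent.PolyCell
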