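import Pool.Agent.PolyTri.T3Dich
import Pool.Agent.PolyCell.Lat
import Pool.Agent.PolyCell.KAx

/-!
# Triple products `x u y`

B1: `ℓ(u) ≥ 3`: `x u y` is reduced. B2: `ℓ(u) = 2`, `u = s_t s_s`: reduced or there is `ρ ∉ T` with `ρ ∈ R(x s_t)`, `ρ ∈ L(s_s y)`.
B4: `R(x w_T y) ⊆ R(w_T y)`. B3: `T_x T_u T_y` is in `Lat 1` for `ℓ(u) = 2`.
-/

open CoxeterSystem

namespace Pool.Agent.PolyCell

variable {B W : Type*} [Group W] {M : CoxeterMatrix B} (cs : CoxeterSystem M W)

theorem simple_mem_D' {i j c : B} (hc : c = i ∨ c = j) : cs.simple c ∈ D cs i j := by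
  refine Subgroup.subset_closure ?_
  rcases hc with rfl | rfl
  · exact Or.inl rfl
  · exact Or.inr rfl

/-- first letter of `u ∈ D` -/
theorem head_D {i j : B} (hij : i ≠ j) {u : W} (hu : u ∈ D cs i j) (h : u ≠ 1) :
    ∃ t u', (t = i ∨ t = j) ∧ u' ∈ D cs i j ∧ u = cs.simple t * u' ∧
      cs.length u = cs.length u' + 1 ∧ ¬ cs.IsLeftDescent u' t := by
  obtain ⟨t, ht⟩ := cs.exists_leftDescent_of_ne_one h
  have htm := ld_of_mem_D cs hij hu ht
  have h1 := cs.isLeftDescent_iff.1 ht
  refine ⟨t, cs.simple t * u, htm, Subgroup.mul_mem _ (simple_mem_D' cs htm) hu, ?_, h1.symm, ?_⟩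
  · rw [cs.simple_mul_simple_cancel_left]
  · rw [cs.not_isLeftDescent_iff, cs.simple_mul_simple_cancel_left]
    exact h1.symm

theorem triple_dich (hM : T3 M) {i j t : B} (hij : i ≠ j) (ht : t = i ∨ t = j) {x y u' : W}
    (hx : Rmin cs i j x) (hy : Lmin cs i j y) (hu' : u' ∈ D cs i j)
    (htu : ¬ cs.IsLeftDescent u' t) :
    cs.length (x * (cs.simple t * u') * y) = cs.length x + (cs.length u' + 1) + cs.length y ∨
      AConcl cs x t (u' * y) := by
  have htx : ¬ cs.IsRightDescent x t := by
    rcases ht with rfl | rfl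
    · exact hx.1
    · exact hx.2
  have htu' : ¬ cs.IsLeftDescent (u' * y) t := by
    rw [ld_D_mul cs hij ht hy hu']
    exact htu
  have hl := len_D_mul cs hij hy hu'
  rcases t3_dich cs hM htx htu' with h | h
  · left
    have e : x * (cs.simple t * u') * y = x * cs.simple t * (u' * y) := by simp only [mul_assoc]
    rw [e, h, hl]
    ring
  · exact Or.inr h

/-- (B1) -/
theorem t3_B1 (hM : T3 M) {i j : B} (hij : i ≠ j) {x y u : W}
    (hx : Rmin cs i j x) (hy : Lmin cs i j y) (hu : u ∈ D cs i j) (h3 : 3 ≤ cs.length u) :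
    cs.length (x * u * y) = cs.length x + cs.length u + cs.length y := by
  have hu1 : u ≠ 1 := by
    rintro rfl
    rw [cs.length_one] at h3
    omega
  obtain ⟨t, u', ht, hu', he, hl, htu⟩ := head_D cs hij hu hu1
  rcases triple_dich cs hM hij ht hx hy hu' htu with h | h
  · rw [he, h, ← he, hl]
  · exfalso
    obtain ⟨h, hht, hxh, hyh, -⟩ := h
    have hhm := t3_ld_long cs hM hij hy hu' (by omega) hyh
    rcases hhm with rfl | rfl
    · exact hx.1 hxh
    · exact hx.2 hxh

/-- (B2) -/
theorem t3_B2 (hM : T3 M) {t s : B} (hts : t ≠ s) {x y : W}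
    (hx : Rmin cs t s x) (hy : Lmin cs t s y) :
    cs.length (x * (cs.simple t * cs.simple s) * y) = cs.length x + 2 + cs.length y ∨
      ∃ r, r ≠ t ∧ r ≠ s ∧ cs.IsRightDescent (x * cs.simple t) r ∧
        cs.IsLeftDescent (cs.simple s * y) r := by
  have hsD : cs.simple s ∈ D cs t s := simple_mem_D' cs (Or.inr rfl)
  have hnt : ¬ cs.IsLeftDescent (cs.simple s) t := by
    rw [← cs.isRightDescent_inv_iff, cs.inv_simple]
    exact fun h => hts (rd_simple cs h)
  rcases triple_dich cs hM hts (Or.inl rfl) hx hy hsD hnt with h | h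
  · left
    rw [h, cs.length_simple]
  · obtain ⟨r, hrt, hxr, hyr, x0, a, b, y0, hx0, ha, hxa, hb, hy0, hyb, hl⟩ := h
    right
    have hrs : r ≠ s := by
      rintro rfl
      exact hx.2 hxr
    refine ⟨r, hrt, hrs, ?_, hyr⟩
    -- `ℓ(b) ≤ 1`
    have hlb : cs.length b ≤ 1 := by
      by_contra hcon
      push Not at hcon
      rw [hyb] at hyr
      have hrb := (ld_D_mul cs hrt.symm (Or.inr rfl) hy0 hb).1 hyr
      -- second letter is `t`
      have hrb1 : cs.IsRightDescent b⁻¹ r := by rw [cs.isRightDescent_inv_iff]; exact hrb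
      obtain ⟨t', ht'r, ht', -, htd⟩ := rd_prev cs hrt.symm (Subgroup.inv_mem _ hb)
        (by rw [cs.length_inv]; exact hcon) hrb1
      have ht't : t' = t := by
        rcases ht' with h | h
        · exact h
        · exact absurd h ht'r
      subst ht't
      have htb : cs.IsLeftDescent (cs.simple r * b) t' := by
        rw [← cs.isRightDescent_inv_iff, mul_inv_rev, cs.inv_simple]
        exact htd
      have hrbD : cs.simple r * b ∈ D cs t' r :=
        Subgroup.mul_mem _ (simple_mem_D' cs (Or.inr rfl)) hb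
      have htw : cs.IsLeftDescent (cs.simple r * (cs.simple s * y)) t' := by
        rw [hyb, ← mul_assoc]
        exact (ld_D_mul cs hrt.symm (Or.inl rfl) hy0 hrbD).2 htb
      have hsw : cs.IsLeftDescent (cs.simple s * y) s := by
        rw [cs.isLeftDescent_iff, cs.simple_mul_simple_cancel_left]
        exact ((cs.not_isLeftDescent_iff).1 hy.2).symm
      have hrw : cs.IsLeftDescent (cs.simple s * y) r := by rw [hyb]; exact hyr
      exact t3_D_left cs hM hrs hts.symm hrt hrw hsw htw
    -- `a s_t = w_T`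
    have hta : ¬ cs.IsRightDescent a t := by
      intro h
      apply hx.1
      rw [hxa]
      exact (rd_mul_D cs hrt.symm (Or.inl rfl) hx0 ha).2 h
    have hlat := (cs.not_isRightDescent_iff).1 hta
    have hatD : a * cs.simple t ∈ D cs t r :=
      Subgroup.mul_mem _ ha (simple_mem_D' cs (Or.inl rfl))
    have hle := len_D_le cs hrt.symm (hM.fin t r) hatD
    have hw := eq_wT_of_len cs hrt.symm (hM.fin t r) hatD (by omega)
    rw [hxa, mul_assoc]
    refine (rd_mul_D cs hrt.symm (Or.inr rfl) hx0 hatD).2 ?_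
    rw [hw]
    exact rd_wT cs hrt.symm (hM.fin t r) (Or.inr rfl)

/-- (B4) -/
theorem t3_B4 (hM : T3 M) {i j k : B} (hij : i ≠ j) {x y : W}
    (hx : Rmin cs i j x) (hy : Lmin cs i j y) (hk : cs.IsRightDescent (x * wT cs i j * y) k) :
    cs.IsRightDescent (wT cs i j * y) k := by
  have hm := hM.fin i j
  have hlw := length_wT cs hij
  have hwD := wT_mem cs i j
  have h3 := hM.ge i j hij
  have hB1 := t3_B1 cs hM hij hx hy hwD (by omega)
  by_cases hky : cs.IsRightDescent y k
  · exact rd_mul_of_red cs (show Red cs (wT cs i j) y from len_D_mul cs hij hy hwD) hky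
  by_contra hcon
  have hly := (cs.not_isRightDescent_iff).1 hky
  by_cases hmin : Lmin cs i j (y * cs.simple k)
  · have h1 := t3_B1 cs hM hij hx hmin hwD (by omega)
    have h2 := cs.isRightDescent_iff.1 hk
    rw [mul_assoc] at h2
    omega
  · -- `y s_k = s_t y`
    have key : ∃ t, (t = i ∨ t = j) ∧ cs.IsLeftDescent (y * cs.simple k) t := by
      by_contra hc
      push Not at hc
      exact hmin ⟨hc i (Or.inl rfl), hc j (Or.inr rfl)⟩
    obtain ⟨t, ht, htd⟩ := key
    have hty : ¬ cs.IsLeftDescent y t := by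
      rcases ht with rfl | rfl
      · exact hy.1
      · exact hy.2
    have hlty := (cs.not_isLeftDescent_iff).1 hty
    have e : cs.simple t * y = y * cs.simple k := by
      refine lift_eq cs hty hky ?_
      rw [cs.isRightDescent_iff]
      rw [cs.isLeftDescent_iff] at htd
      rw [mul_assoc]
      omega
    apply hcon
    rw [cs.isRightDescent_iff, mul_assoc, ← e, ← mul_assoc]
    have hwtD : wT cs i j * cs.simple t ∈ D cs i j := Subgroup.mul_mem _ hwD (simple_mem_D' cs ht)
    rw [len_D_mul cs hij hy hwtD, len_D_mul cs hij hy hwD]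
    have h5 := cs.isRightDescent_iff.1 (rd_wT cs hij hm ht)
    omega

end Pool.Agent.PolyCell
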